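import Pool.Agent.TH428.Stk.Cert

/-!
The bound for the number of permutations sorted by three passes.
-/

set_option autoImplicit false
set_option maxRecDepth 100000

namespace Pool.Agent.TH428.Stk.D1

open Finset
open scoped ENNReal NNReal

/-- A sum of powers of a fraction with a common denominator. -/
theorem hsum (f : ℕ → ℕ) (J sn sd : ℕ) (hsd : sd ≠ 0) :
    ∑ j ∈ range (J + 1), (f j : ℝ≥0) * ((sn : ℝ≥0) / sd) ^ j =
      ((∑ j ∈ range (J + 1), f j * (sn ^ j * sd ^ (J - j)) : ℕ) : ℝ≥0) / (sd : ℝ≥0) ^ J := by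
  have h0 : (sd : ℝ≥0) ≠ 0 := by exact_mod_cast hsd
  rw [eq_div_iff (pow_ne_zero _ h0)]
  push_cast
  rw [Finset.sum_mul]
  refine Finset.sum_congr rfl fun j hj => ?_
  rw [Finset.mem_range] at hj
  have h1 : (sd : ℝ≥0) ^ J = (sd : ℝ≥0) ^ j * (sd : ℝ≥0) ^ (J - j) := by
    rw [← pow_add]; congr 1; omega
  rw [h1, div_pow]
  field_simp

noncomputable def κ : ℝ≥0 := (1000000000000 : ℝ≥0)⁻¹

theorem hκ : ((1000000000000 : ℕ) : ℝ≥0∞) * (κ : ℝ≥0∞) = 1 := by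
  have : (1000000000000 : ℝ≥0) * κ = 1 := by unfold κ; exact mul_inv_cancel₀ (by norm_num)
  exact_mod_cast this

theorem hu : (40 : ℝ≥0∞) * (((40 : ℝ≥0)⁻¹ : ℝ≥0) : ℝ≥0∞) = 1 := by
  have : (40 : ℝ≥0) * (40 : ℝ≥0)⁻¹ = 1 := mul_inv_cancel₀ (by norm_num)
  exact_mod_cast this

theorem hyd : ((4851 : ℕ) : ℝ≥0∞) * (((4851 : ℝ≥0)⁻¹ : ℝ≥0) : ℝ≥0∞) = 1 := by
  have : (4851 : ℝ≥0) * (4851 : ℝ≥0)⁻¹ = 1 := mul_inv_cancel₀ (by norm_num)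
  exact_mod_cast this

theorem hx : (((500 / 4851 : ℝ≥0)) : ℝ≥0∞) =
    ((500 : ℕ) : ℝ≥0∞) * (((4851 : ℝ≥0)⁻¹ : ℝ≥0) : ℝ≥0∞) := by
  have : (500 / 4851 : ℝ≥0) = ((500 : ℕ) : ℝ≥0) * (4851 : ℝ≥0)⁻¹ := by
    rw [div_eq_mul_inv]; norm_num
  rw [this]
  push_cast
  rfl

/-- The subsolution. -/
noncomputable def P : Arr := PA tab (κ : ℝ≥0∞)

theorem rho_eq (j k : ℕ) (hj : j < 21) (hk : k < 45) :
    rho tab j k = NL.getD j 0 / (2 ^ 112) ^ k % 2 ^ 112 := by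
  have hB : ∑ a ∈ antidiagonal j, (∑ k ∈ range 45, theta tab a.1 k) *
      (∑ k ∈ range 45, delta tab a.2 k) < 2 ^ 112 := by
    calc ∑ a ∈ antidiagonal j, (∑ k ∈ range 45, theta tab a.1 k) *
          (∑ k ∈ range 45, delta tab a.2 k)
        ≤ ∑ a ∈ antidiagonal j, 2 ^ 50 * 2 ^ 50 := by
          refine Finset.sum_le_sum fun a ha => ?_
          rw [HasAntidiagonal.mem_antidiagonal] at ha
          exact Nat.mul_le_mul (chkST a.1 (by omega)).le (chkSD a.2 (by omega)).le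
      _ = (j + 1) * (2 ^ 50 * 2 ^ 50) := by
          rw [Finset.sum_const, Finset.Nat.card_antidiagonal, smul_eq_mul]
      _ ≤ 21 * (2 ^ 50 * 2 ^ 50) := Nat.mul_le_mul_right _ (by omega)
      _ < 2 ^ 112 := by norm_num
  have h := rho_eq_digit (n := tab) (I := 45) (B := 2 ^ 112) j k hk hB
  have h5 : ∑ a ∈ antidiagonal j, (∑ k ∈ range 45, theta tab a.1 k * (2 ^ 112) ^ k) *
      (∑ k ∈ range 45, delta tab a.2 k * (2 ^ 112) ^ k) = NL.getD j 0 := by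
    rw [chkN j hj]
    refine Finset.sum_congr rfl fun a ha => ?_
    rw [HasAntidiagonal.mem_antidiagonal] at ha
    rw [chkT a.1 (by omega), chkD a.2 (by omega)]
  rw [h5] at h
  exact h.symm

theorem P_le : ∀ j k, P j k ≤ Phi ((500 / 4851 : ℝ≥0) : ℝ≥0∞) P j k := by
  refine PA_le_Phi (K := 1000000000000) (xn := 500) (xd := 4851) hu hκ hyd hx tab00 ?_ ?_
  · intro j hj
    by_cases h : j < 21
    · exact tab_col0 j h hj
    · exact tab_zero (by omega)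
  · intro j k
    by_cases h : j < 21 ∧ k + 1 < 45
    · rw [rho_eq j (k + 1) h.1 h.2]
      exact chkMain j h.1 k (by omega)
    · rw [tab_zero h]
      simp

theorem c0_P : 1 ≤ c0 ((91 / 1000 : ℝ≥0) : ℝ≥0∞) P := by
  unfold c0
  refine le_trans ?_ (ENNReal.le_tsum (f := fun j => P j 0 * ((91 / 1000 : ℝ≥0) : ℝ≥0∞) ^ j) 0)
  unfold P PA
  rw [tab00]
  simp only [pow_zero, mul_one]
  exact hκ.ge

theorem c1_P : ((15632139 / 100000000 : ℝ≥0) : ℝ≥0∞) ≤ c1 ((91 / 1000 : ℝ≥0) : ℝ≥0∞) P := by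
  unfold c1
  refine le_trans ?_ (ENNReal.sum_le_tsum (range 21))
  have h1 : ∑ j ∈ range 21, P j 1 * ((91 / 1000 : ℝ≥0) : ℝ≥0∞) ^ j =
      ((4 * κ * ∑ j ∈ range (20 + 1), (tab j 1 : ℝ≥0) * (((91 : ℕ) : ℝ≥0) / ((100 : ℕ) : ℝ≥0)) ^ j : ℝ≥0) : ℝ≥0∞) := by
    rw [Finset.mul_sum, ENNReal.ofNNReal_finsetSum]
    refine Finset.sum_congr rfl fun j _ => ?_
    unfold P PA
    have : (4 * κ * ((tab j 1 : ℝ≥0) * (((91 : ℕ) : ℝ≥0) / ((100 : ℕ) : ℝ≥0)) ^ j) : ℝ≥0) =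
        (tab j 1 : ℝ≥0) * (10 ^ j * 4 ^ 1) * κ * (91 / 1000 : ℝ≥0) ^ j := by
      have e : (((91 : ℕ) : ℝ≥0) / ((100 : ℕ) : ℝ≥0)) = 10 * (91 / 1000) := by
        push_cast; ring_nf
      rw [e, mul_pow]
      ring
    rw [this]
    push_cast
    rfl
  rw [h1, hsum _ _ _ _ (by norm_num), ENNReal.coe_le_coe]
  have h2 : 15632139 * (1000000000000 * 100 ^ 20) ≤
      100000000 * (4 * ∑ j ∈ range (20 + 1), tab j 1 * (91 ^ j * 100 ^ (20 - j))) := by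
    decide +kernel
  have h3 : (15632139 : ℝ≥0) * (1000000000000 * 100 ^ 20) ≤
      100000000 * (4 * ((∑ j ∈ range (20 + 1), tab j 1 * (91 ^ j * 100 ^ (20 - j)) : ℕ) : ℝ≥0)) := by
    exact_mod_cast h2
  unfold κ
  rw [div_le_iff₀ (by positivity)]
  have e : 4 * (1000000000000 : ℝ≥0)⁻¹ *
      (((∑ j ∈ range (20 + 1), tab j 1 * (91 ^ j * 100 ^ (20 - j)) : ℕ) : ℝ≥0) / ((100 : ℕ) : ℝ≥0) ^ 20) * 100000000 =
      (100000000 * (4 * ((∑ j ∈ range (20 + 1), tab j 1 * (91 ^ j * 100 ^ (20 - j)) : ℕ) : ℝ≥0))) /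
        (1000000000000 * 100 ^ 20) := by
    rw [eq_div_iff (by positivity)]
    push_cast
    field_simp
  rw [e, le_div_iff₀ (by positivity)]
  exact h3

theorem r0_P : ((2078351 / 2000000 : ℝ≥0) : ℝ≥0∞) ≤ r0 ((63 / 250 : ℝ≥0) : ℝ≥0∞) P := by
  unfold r0
  refine le_trans ?_ (ENNReal.sum_le_tsum (range 45))
  have h1 : ∑ k ∈ range 45, P 0 k * ((63 / 250 : ℝ≥0) : ℝ≥0∞) ^ k =
      ((κ * ∑ k ∈ range (44 + 1), (tab 0 k : ℝ≥0) * (((126 : ℕ) : ℝ≥0) / ((125 : ℕ) : ℝ≥0)) ^ k : ℝ≥0) : ℝ≥0∞) := by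
    rw [Finset.mul_sum, ENNReal.ofNNReal_finsetSum]
    refine Finset.sum_congr rfl fun k _ => ?_
    unfold P PA
    have : (κ * ((tab 0 k : ℝ≥0) * (((126 : ℕ) : ℝ≥0) / ((125 : ℕ) : ℝ≥0)) ^ k) : ℝ≥0) =
        (tab 0 k : ℝ≥0) * (10 ^ 0 * 4 ^ k) * κ * (63 / 250 : ℝ≥0) ^ k := by
      have e : (((126 : ℕ) : ℝ≥0) / ((125 : ℕ) : ℝ≥0)) = 4 * (63 / 250) := by
        push_cast; ring_nf
      rw [e, mul_pow]
      ring
    rw [this]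
    push_cast
    rfl
  rw [h1, hsum _ _ _ _ (by norm_num), ENNReal.coe_le_coe]
  have h2 : 2078351 * (1000000000000 * 125 ^ 44) ≤
      2000000 * ∑ k ∈ range (44 + 1), tab 0 k * (126 ^ k * 125 ^ (44 - k)) := by
    decide +kernel
  have h3 : (2078351 : ℝ≥0) * (1000000000000 * 125 ^ 44) ≤
      2000000 * ((∑ k ∈ range (44 + 1), tab 0 k * (126 ^ k * 125 ^ (44 - k)) : ℕ) : ℝ≥0) := by
    exact_mod_cast h2
  unfold κ
  rw [div_le_iff₀ (by positivity)]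
  have e : (1000000000000 : ℝ≥0)⁻¹ *
      (((∑ k ∈ range (44 + 1), tab 0 k * (126 ^ k * 125 ^ (44 - k)) : ℕ) : ℝ≥0) / ((125 : ℕ) : ℝ≥0) ^ 44) * 2000000 =
      (2000000 * ((∑ k ∈ range (44 + 1), tab 0 k * (126 ^ k * 125 ^ (44 - k)) : ℕ) : ℝ≥0)) /
        (1000000000000 * 125 ^ 44) := by
    rw [eq_div_iff (by positivity)]
    push_cast
    field_simp
  rw [e, le_div_iff₀ (by positivity)]
  exact h3

theorem ev_P : ev ((91 / 1000 : ℝ≥0) : ℝ≥0∞) ((63 / 250 : ℝ≥0) : ℝ≥0∞) P ≤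
    ((261687 / 250000 : ℝ≥0) : ℝ≥0∞) := by
  unfold ev
  rw [tsum_eq_sum (s := range 21)]
  swap
  · intro j hj
    rw [Finset.mem_range] at hj
    unfold P PA
    simp [tab_zero (j := j) (fun h => hj h.1)]
  have h0 : ∀ j ∈ range 21, ∑' k, P j k * (((91 / 1000 : ℝ≥0) : ℝ≥0∞) ^ j *
      ((63 / 250 : ℝ≥0) : ℝ≥0∞) ^ k) = ∑ k ∈ range 45, P j k * (((91 / 1000 : ℝ≥0) : ℝ≥0∞) ^ j *
      ((63 / 250 : ℝ≥0) : ℝ≥0∞) ^ k) := by
    intro j _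
    apply tsum_eq_sum
    intro k hk
    rw [Finset.mem_range] at hk
    unfold P PA
    simp [tab_zero (j := j) (k := k) (fun h => hk h.2)]
  rw [Finset.sum_congr rfl h0]
  -- row sums
  have h1 : ∑ j ∈ range 21, ∑ k ∈ range 45, P j k * (((91 / 1000 : ℝ≥0) : ℝ≥0∞) ^ j *
      ((63 / 250 : ℝ≥0) : ℝ≥0∞) ^ k) =
      ((κ * ∑ j ∈ range (20 + 1), (∑ k ∈ range (44 + 1), (tab j k : ℝ≥0) *
        (((126 : ℕ) : ℝ≥0) / ((125 : ℕ) : ℝ≥0)) ^ k) * (((91 : ℕ) : ℝ≥0) / ((100 : ℕ) : ℝ≥0)) ^ j : ℝ≥0) : ℝ≥0∞) := by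
    rw [Finset.mul_sum, ENNReal.ofNNReal_finsetSum]
    refine Finset.sum_congr rfl fun j _ => ?_
    rw [Finset.sum_mul, Finset.mul_sum, ENNReal.ofNNReal_finsetSum]
    refine Finset.sum_congr rfl fun k _ => ?_
    unfold P PA
    have : (κ * ((tab j k : ℝ≥0) * (((126 : ℕ) : ℝ≥0) / ((125 : ℕ) : ℝ≥0)) ^ k *
        (((91 : ℕ) : ℝ≥0) / ((100 : ℕ) : ℝ≥0)) ^ j) : ℝ≥0) =
        (tab j k : ℝ≥0) * (10 ^ j * 4 ^ k) * κ * ((91 / 1000 : ℝ≥0) ^ j * (63 / 250 : ℝ≥0) ^ k) := by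
      have e : (((126 : ℕ) : ℝ≥0) / ((125 : ℕ) : ℝ≥0)) = 4 * (63 / 250) := by
        push_cast; ring_nf
      have e2 : (((91 : ℕ) : ℝ≥0) / ((100 : ℕ) : ℝ≥0)) = 10 * (91 / 1000) := by
        push_cast; ring_nf
      rw [e, e2, mul_pow, mul_pow]
      ring
    rw [this]
    push_cast
    rfl
  rw [h1, ENNReal.coe_le_coe]
  have h2 : ∀ j, ∑ k ∈ range (44 + 1), (tab j k : ℝ≥0) * (((126 : ℕ) : ℝ≥0) / ((125 : ℕ) : ℝ≥0)) ^ k =
      ((∑ k ∈ range (44 + 1), tab j k * (126 ^ k * 125 ^ (44 - k)) : ℕ) : ℝ≥0) / ((125 : ℕ) : ℝ≥0) ^ 44 :=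
    fun j => hsum _ _ _ _ (by norm_num)
  simp_rw [h2, div_mul_eq_mul_div]
  rw [← Finset.sum_div, hsum (fun j => ∑ k ∈ range (44 + 1), tab j k * (126 ^ k * 125 ^ (44 - k))) _ _ _ (by norm_num)]
  have h3 : 250000 * ∑ j ∈ range (20 + 1), (∑ k ∈ range (44 + 1), tab j k * (126 ^ k * 125 ^ (44 - k))) *
      (91 ^ j * 100 ^ (20 - j)) ≤ 261687 * (1000000000000 * 125 ^ 44 * 100 ^ 20) := by
    decide +kernel
  have h4 : (250000 : ℝ≥0) * ((∑ j ∈ range (20 + 1), (∑ k ∈ range (44 + 1), tab j k * (126 ^ k * 125 ^ (44 - k))) *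
      (91 ^ j * 100 ^ (20 - j)) : ℕ) : ℝ≥0) ≤ 261687 * (1000000000000 * 125 ^ 44 * 100 ^ 20) := by
    exact_mod_cast h3
  unfold κ
  rw [le_div_iff₀ (by positivity)]
  have e : (1000000000000 : ℝ≥0)⁻¹ *
      (((∑ j ∈ range (20 + 1), (∑ k ∈ range (44 + 1), tab j k * (126 ^ k * 125 ^ (44 - k))) *
      (91 ^ j * 100 ^ (20 - j)) : ℕ) : ℝ≥0) / ((100 : ℕ) : ℝ≥0) ^ 20 / ((125 : ℕ) : ℝ≥0) ^ 44) * 250000 =
      (250000 * ((∑ j ∈ range (20 + 1), (∑ k ∈ range (44 + 1), tab j k * (126 ^ k * 125 ^ (44 - k))) *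
      (91 ^ j * 100 ^ (20 - j)) : ℕ) : ℝ≥0)) / (1000000000000 * 125 ^ 44 * 100 ^ 20) := by
    rw [eq_div_iff (by positivity)]
    push_cast
    field_simp
  rw [e, div_le_iff₀ (by positivity)]
  exact h4

/-- The number of permutations of `0, ..., n-1` sorted by three passes is at most
`(261687 / 63000) * 9.702 ^ n`. -/
theorem bound (n : ℕ) (hn : n ≠ 0) (W : ℕ)
    (hW : (W : ℕ∞) ≤
      {w : List ℕ | w.Perm (List.range n) ∧ srt (srt (srt w)) = List.range n}.encard) :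
    (W : ℝ) ≤ 5 * (4851 / 500 : ℝ) ^ n := by
  have h := count_bound (500 / 4851) (91 / 1000) (63 / 250) (261687 / 250000)
    (15632139 / 100000000) (2078351 / 2000000) (by positivity) (by positivity)
    (by push_cast; norm_num) P P_le c0_P c1_P r0_P ev_P n hn W hW
  push_cast at h
  have h1 : (W : ℝ) * (500 / 4851) ^ n ≤ 5 := by
    have h2 : (0 : ℝ) ≤ (W : ℝ) * (500 / 4851) ^ n := by positivity
    nlinarith
  have h3 : (500 / 4851 : ℝ) ^ n * (4851 / 500 : ℝ) ^ n = 1 := by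
    rw [← mul_pow]; norm_num
  calc (W : ℝ) = (W : ℝ) * ((500 / 4851 : ℝ) ^ n * (4851 / 500 : ℝ) ^ n) := by rw [h3, mul_one]
    _ = ((W : ℝ) * (500 / 4851) ^ n) * (4851 / 500 : ℝ) ^ n := by ring
    _ ≤ 5 * (4851 / 500 : ℝ) ^ n := by gcongr

end Pool.Agent.TH428.Stk.D1
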