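import Pool.Agent.TH428.Stk.Data

/-!
Kernel checks for the integer table.
-/

set_option autoImplicit false
set_option maxRecDepth 100000

namespace Pool.Agent.TH428.Stk.D1

open Finset

theorem tab_zero {j k : ℕ} (h : ¬ (j < 21 ∧ k < 45)) : tab j k = 0 := by
  unfold tab
  rw [if_neg h]

theorem tab00 : tab 0 0 = 1000000000000 := by decide +kernel

theorem tab_col0 : ∀ j < 21, j ≠ 0 → tab j 0 = 0 := by decide +kernel

theorem chkT : ∀ j < 21, PT.getD j 0 = ∑ k ∈ range 45, theta tab j k * (2 ^ 112) ^ k := by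
  decide +kernel

theorem chkD : ∀ j < 21, PD.getD j 0 = ∑ k ∈ range 45, delta tab j k * (2 ^ 112) ^ k := by
  decide +kernel

theorem chkN : ∀ j < 21, NL.getD j 0 =
    ∑ a ∈ antidiagonal j, PT.getD a.1 0 * PD.getD a.2 0 := by
  decide +kernel

theorem chkST : ∀ j < 21, ∑ k ∈ range 45, theta tab j k < 2 ^ 50 := by decide +kernel

theorem chkSD : ∀ j < 21, ∑ k ∈ range 45, delta tab j k < 2 ^ 50 := by decide +kernel

theorem chkMain : ∀ j < 21, ∀ k < 44,
    40 * 4851 * 1000000000000 * tab j (k + 1) ≤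
      500 * (1000000000000 * mm tab j k + NL.getD j 0 / (2 ^ 112) ^ (k + 1) % 2 ^ 112) := by
  decide +kernel

end Pool.Agent.TH428.Stk.D1
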