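import Pool.Agent.TH428.Stk.Main

/-!
From an integer table to a subsolution.
-/

set_option autoImplicit false

namespace Pool.Agent.TH428.Stk

open Finset
open scoped ENNReal NNReal Polynomial

section Table

variable (n : ℕ → ℕ → ℕ)

/-- Ten times row `j` plus the previous row. -/
def mm (j k : ℕ) : ℕ := 10 * n j k + (if j = 0 then 0 else n (j - 1) k)

/-- The table of `tho (s1 P)`, up to scaling. -/
def theta (j k : ℕ) : ℕ :=
  if k = 0 then 0
  else (if k = 1 then 0 else mm n j (k - 1)) + 8 * mm n j k + 16 * mm n j (k + 1)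

/-- The table of `dl P`, up to scaling. -/
def delta (j k : ℕ) : ℕ := n j k + 10 * n (j + 1) k

/-- The table of the product, up to scaling. -/
def rho (j k : ℕ) : ℕ :=
  ∑ a ∈ antidiagonal j, ∑ p ∈ antidiagonal k, theta n a.1 p.1 * delta n a.2 p.2

/-- The array given by a table. -/
noncomputable def PA (κ : ℝ≥0∞) : Arr := fun j k => (n j k : ℝ≥0∞) * (10 ^ j * 4 ^ k) * κ

variable {n}

theorem s1_PA {κ u0 : ℝ≥0∞} (hu : 40 * u0 = 1) (j k : ℕ) :
    s1 (PA n κ) j k = (mm n j k : ℝ≥0∞) * (4 * u0 * (10 ^ j * 4 ^ k) * κ) := by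
  cases j with
  | zero =>
    simp only [s1, PA, mm, if_true, add_zero]
    push_cast
    calc (n 0 k : ℝ≥0∞) * (10 ^ 0 * 4 ^ k) * κ
        = (n 0 k : ℝ≥0∞) * (10 ^ 0 * 4 ^ k) * κ * 1 := by rw [mul_one]
      _ = (n 0 k : ℝ≥0∞) * (10 ^ 0 * 4 ^ k) * κ * (40 * u0) := by rw [hu]
      _ = _ := by ring
  | succ j =>
    simp only [s1, PA, mm, Nat.succ_ne_zero, if_false, Nat.add_sub_cancel]
    push_cast
    calc (n (j + 1) k : ℝ≥0∞) * (10 ^ (j + 1) * 4 ^ k) * κ + (n j k : ℝ≥0∞) * (10 ^ j * 4 ^ k) * κ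
        = ((n (j + 1) k : ℝ≥0∞) * (10 ^ (j + 1) * 4 ^ k) * κ +
          (n j k : ℝ≥0∞) * (10 ^ j * 4 ^ k) * κ) * 1 := by rw [mul_one]
      _ = ((n (j + 1) k : ℝ≥0∞) * (10 ^ (j + 1) * 4 ^ k) * κ +
          (n j k : ℝ≥0∞) * (10 ^ j * 4 ^ k) * κ) * (40 * u0) := by rw [hu]
      _ = _ := by rw [pow_succ]; ring

theorem tm_PA {κ u0 : ℝ≥0∞} (hu : 40 * u0 = 1) (j k : ℕ) :
    tm (s1 (PA n κ)) j (k + 1) = (mm n j k : ℝ≥0∞) * (u0 * (10 ^ j * 4 ^ (k + 1)) * κ) := by
  simp only [tm, s1_PA hu]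
  rw [pow_succ]
  ring

theorem tho_PA {κ u0 : ℝ≥0∞} (hu : 40 * u0 = 1) (j k : ℕ) :
    tho (s1 (PA n κ)) j k = (theta n j k : ℝ≥0∞) * (u0 * (10 ^ j * 4 ^ k) * κ) := by
  match k with
  | 0 => simp [tho, theta]
  | 1 =>
    simp only [tho, s1_PA hu, theta, one_ne_zero, if_false, if_true]
    push_cast
    ring
  | k + 2 =>
    simp only [tho, s1_PA hu, theta, Nat.succ_ne_zero, if_false]
    rw [if_neg (by omega), show k + 2 - 1 = k + 1 by omega, show k + 2 + 1 = k + 3 by omega]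
    push_cast
    ring

theorem dl_PA {κ : ℝ≥0∞} (j k : ℕ) :
    dl (PA n κ) j k = (delta n j k : ℝ≥0∞) * ((10 ^ j * 4 ^ k) * κ) := by
  simp only [dl, PA, delta]
  push_cast
  ring

theorem mulA_PA {κ u0 : ℝ≥0∞} (hu : 40 * u0 = 1) (j k : ℕ) :
    mulA (tho (s1 (PA n κ))) (dl (PA n κ)) j k =
      (rho n j k : ℝ≥0∞) * (u0 * (10 ^ j * 4 ^ k) * κ * κ) := by
  unfold mulA rho
  push_cast
  rw [Finset.sum_mul]
  refine Finset.sum_congr rfl fun a ha => ?_
  rw [Finset.sum_mul]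
  refine Finset.sum_congr rfl fun p hp => ?_
  rw [HasAntidiagonal.mem_antidiagonal] at ha hp
  rw [tho_PA hu, dl_PA, ← ha, ← hp, pow_add, pow_add]
  ring

/-- The subsolution property from integer inequalities. -/
theorem PA_le_Phi {κ u0 x yd : ℝ≥0∞} {K xn xd : ℕ} (hu : 40 * u0 = 1) (hκ : (K : ℝ≥0∞) * κ = 1)
    (hyd : (xd : ℝ≥0∞) * yd = 1) (hx : x = xn * yd)
    (h00 : n 0 0 = K) (hj0 : ∀ j, j ≠ 0 → n j 0 = 0)
    (hchk : ∀ j k, 40 * xd * K * n j (k + 1) ≤ xn * (K * mm n j k + rho n j (k + 1))) :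
    ∀ j k, PA n κ j k ≤ Phi x (PA n κ) j k := by
  intro j k
  cases k with
  | zero =>
    by_cases hj : j = 0
    · subst hj
      unfold Phi PA
      simp only [h00, pow_zero, mul_one, and_self, if_true, hκ]
      exact le_add_right le_rfl
    · unfold PA
      rw [hj0 j hj]
      simp
  | succ k =>
    unfold Phi
    rw [if_neg (by omega), zero_add, tm_PA hu, mulA_PA hu]
    have h1 : ((40 * xd * K * n j (k + 1) : ℕ) : ℝ≥0∞) ≤
        ((xn * (K * mm n j k + rho n j (k + 1)) : ℕ) : ℝ≥0∞) := by exact_mod_cast hchk j k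
    have h2 : PA n κ j (k + 1) = ((40 * xd * K * n j (k + 1) : ℕ) : ℝ≥0∞) *
        (u0 * (10 ^ j * 4 ^ (k + 1)) * κ * κ * yd) := by
      unfold PA
      push_cast
      calc (n j (k + 1) : ℝ≥0∞) * (10 ^ j * 4 ^ (k + 1)) * κ
          = (n j (k + 1) : ℝ≥0∞) * (10 ^ j * 4 ^ (k + 1)) * κ * (1 * 1 * 1) := by simp
        _ = (n j (k + 1) : ℝ≥0∞) * (10 ^ j * 4 ^ (k + 1)) * κ *
            ((40 * u0) * (K * κ) * (xd * yd)) := by rw [hu, hκ, hyd]
        _ = _ := by ring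
    rw [h2]
    calc ((40 * xd * K * n j (k + 1) : ℕ) : ℝ≥0∞) * (u0 * (10 ^ j * 4 ^ (k + 1)) * κ * κ * yd)
        ≤ ((xn * (K * mm n j k + rho n j (k + 1)) : ℕ) : ℝ≥0∞) *
          (u0 * (10 ^ j * 4 ^ (k + 1)) * κ * κ * yd) := by gcongr
      _ = x * (((mm n j k : ℝ≥0∞) * (u0 * (10 ^ j * 4 ^ (k + 1)) * κ)) * (K * κ) +
          (rho n j (k + 1) : ℝ≥0∞) * (u0 * (10 ^ j * 4 ^ (k + 1)) * κ * κ)) := by
          rw [hx]; push_cast; ring
      _ = _ := by rw [hκ, mul_one]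

end Table

/-! ### Packed products -/

/-- The polynomial with the given coefficients below `I`. -/
noncomputable def tp (f : ℕ → ℕ) (I : ℕ) : ℕ[X] := ∑ k ∈ range I, Polynomial.C (f k) * Polynomial.X ^ k

theorem coeff_tp (f : ℕ → ℕ) (I k : ℕ) : (tp f I).coeff k = if k < I then f k else 0 := by
  unfold tp
  simp [Polynomial.finsetSum_coeff, Polynomial.coeff_X_pow]

theorem eval_tp (f : ℕ → ℕ) (I b : ℕ) : (tp f I).eval b = ∑ k ∈ range I, f k * b ^ k := by
  unfold tp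
  simp [Polynomial.eval_finsetSum]

theorem coeff_le_eval_one (p : ℕ[X]) (k : ℕ) : p.coeff k ≤ p.eval 1 := by
  rw [Polynomial.eval_eq_sum_range]
  by_cases hk : k ∈ range (p.natDegree + 1)
  · have := Finset.single_le_sum (f := fun i => p.coeff i * 1 ^ i) (fun i _ => Nat.zero_le _) hk
    simpa using this
  · rw [Finset.mem_range, not_lt] at hk
    rw [Polynomial.coeff_eq_zero_of_natDegree_lt (by omega)]
    exact Nat.zero_le _

theorem digit {b : ℕ} (p : ℕ[X]) (hp : ∀ k, p.coeff k < b) (k : ℕ) :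
    p.eval b / b ^ k % b = p.coeff k := by
  have hb : 0 < b := lt_of_le_of_lt (Nat.zero_le _) (hp 0)
  induction k generalizing p with
  | zero =>
    have h := Polynomial.divX_mul_X_add p
    have h2 : p.eval b = p.divX.eval b * b + p.coeff 0 := by
      conv_lhs => rw [← h]
      simp
    rw [h2, pow_zero, Nat.div_one, Nat.mul_comm, Nat.mul_add_mod, Nat.mod_eq_of_lt (hp 0)]
  | succ k ih =>
    have h := Polynomial.divX_mul_X_add p
    have h2 : p.eval b = p.divX.eval b * b + p.coeff 0 := by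
      conv_lhs => rw [← h]
      simp
    have h3 : p.eval b / b = p.divX.eval b := by
      rw [h2, Nat.mul_comm, Nat.mul_add_div hb, Nat.div_eq_of_lt (hp 0), add_zero]
    have h4 := ih p.divX (fun k => by rw [Polynomial.coeff_divX]; exact hp _)
    rw [pow_succ', ← Nat.div_div_eq_div_mul, h3, h4, Polynomial.coeff_divX]

/-- The entries of the product table are the digits of the packed product. -/
theorem rho_eq_digit {n : ℕ → ℕ → ℕ} {I B : ℕ} (j k : ℕ) (hk : k < I)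
    (hB : ∑ a ∈ antidiagonal j, (∑ k ∈ range I, theta n a.1 k) * (∑ k ∈ range I, delta n a.2 k) < B) :
    (∑ a ∈ antidiagonal j, (∑ k ∈ range I, theta n a.1 k * B ^ k) *
      (∑ k ∈ range I, delta n a.2 k * B ^ k)) / B ^ k % B = rho n j k := by
  set p : ℕ[X] := ∑ a ∈ antidiagonal j, tp (theta n a.1) I * tp (delta n a.2) I with hp
  have h1 : p.eval B = ∑ a ∈ antidiagonal j, (∑ k ∈ range I, theta n a.1 k * B ^ k) *
      (∑ k ∈ range I, delta n a.2 k * B ^ k) := by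
    rw [hp, Polynomial.eval_finsetSum]
    refine Finset.sum_congr rfl fun a _ => ?_
    rw [Polynomial.eval_mul, eval_tp, eval_tp]
  have h2 : p.eval 1 = ∑ a ∈ antidiagonal j, (∑ k ∈ range I, theta n a.1 k) *
      (∑ k ∈ range I, delta n a.2 k) := by
    rw [hp, Polynomial.eval_finsetSum]
    refine Finset.sum_congr rfl fun a _ => ?_
    rw [Polynomial.eval_mul, eval_tp, eval_tp]
    simp
  have h3 : p.coeff k = rho n j k := by
    rw [hp, Polynomial.finsetSum_coeff]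
    unfold rho
    refine Finset.sum_congr rfl fun a _ => ?_
    rw [Polynomial.coeff_mul]
    refine Finset.sum_congr rfl fun q hq => ?_
    rw [HasAntidiagonal.mem_antidiagonal] at hq
    rw [coeff_tp, coeff_tp, if_pos (by omega), if_pos (by omega)]
  rw [← h1, ← h3]
  apply digit
  intro k
  exact lt_of_le_of_lt (coeff_le_eval_one p k) (h2 ▸ hB)

end Pool.Agent.TH428.Stk
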