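import Pool.Agent.TH428.Stk.Func

/-!
Evaluation of arrays at a point, with values in `[0, ∞]`.
-/

set_option autoImplicit false

namespace Pool.Agent.TH428.Stk

open Finset
open scoped ENNReal

theorem tsum_antidiagonal (f : ℕ → ℕ → ℝ≥0∞) :
    ∑' n, ∑ p ∈ antidiagonal n, f p.1 p.2 = ∑' a, ∑' b, f a b := by
  have h1 : ∀ n, ∑ p ∈ antidiagonal n, f p.1 p.2 =
      ∑' p : (antidiagonal n : Finset (ℕ × ℕ)), f p.1.1 p.1.2 := by
    intro n
    rw [tsum_fintype, Finset.univ_eq_attach, Finset.sum_attach (antidiagonal n) (fun p => f p.1 p.2)]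
  simp_rw [h1]
  rw [← ENNReal.tsum_sigma' (fun p : (Σ n : ℕ, (antidiagonal n : Finset (ℕ × ℕ))) =>
    f p.2.1.1 p.2.1.2)]
  rw [← ENNReal.tsum_prod]
  exact Finset.HasAntidiagonal.sigmaAntidiagonalEquivProd.tsum_eq (fun q : ℕ × ℕ => f q.1 q.2)

theorem tsum_mul_antidiagonal (f g : ℕ → ℝ≥0∞) :
    ∑' n, ∑ p ∈ antidiagonal n, f p.1 * g p.2 = (∑' a, f a) * ∑' b, g b := by
  rw [tsum_antidiagonal (fun a b => f a * g b)]
  simp_rw [ENNReal.tsum_mul_left, ENNReal.tsum_mul_right]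

/-- The value of an array at the point `(s, t)`. -/
noncomputable def ev (s t : ℝ≥0∞) (G : Arr) : ℝ≥0∞ := ∑' j, ∑' k, G j k * (s ^ j * t ^ k)

theorem ev_mulA (s t : ℝ≥0∞) (A B : Arr) : ev s t (mulA A B) = ev s t A * ev s t B := by
  unfold ev mulA
  have h1 : ∀ j, ∑' k, (∑ a ∈ antidiagonal j, ∑ p ∈ antidiagonal k, A a.1 p.1 * B a.2 p.2) *
      (s ^ j * t ^ k) = ∑ a ∈ antidiagonal j, (∑' k, A a.1 k * (s ^ a.1 * t ^ k)) *
        (∑' k, B a.2 k * (s ^ a.2 * t ^ k)) := by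
    intro j
    have h2 : ∀ a ∈ antidiagonal j, (∑' k, A a.1 k * (s ^ a.1 * t ^ k)) *
        (∑' k, B a.2 k * (s ^ a.2 * t ^ k)) =
        ∑' k, ∑ p ∈ antidiagonal k, A a.1 p.1 * B a.2 p.2 * (s ^ j * t ^ k) := by
      intro a ha
      rw [HasAntidiagonal.mem_antidiagonal] at ha
      rw [← tsum_mul_antidiagonal]
      refine tsum_congr fun k => Finset.sum_congr rfl fun p hp => ?_
      rw [HasAntidiagonal.mem_antidiagonal] at hp
      rw [← ha, ← hp, pow_add, pow_add]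
      ring
    rw [Finset.sum_congr rfl h2, ← Summable.tsum_finsetSum (fun _ _ => ENNReal.summable)]
    refine tsum_congr fun k => ?_
    rw [Finset.sum_mul]
    refine Finset.sum_congr rfl fun a _ => ?_
    rw [Finset.sum_mul]
  simp_rw [h1]
  exact tsum_mul_antidiagonal (fun j => ∑' k, A j k * (s ^ j * t ^ k))
    (fun j => ∑' k, B j k * (s ^ j * t ^ k))

/-- The part of the value coming from the first column. -/
noncomputable def c0 (s : ℝ≥0∞) (G : Arr) : ℝ≥0∞ := ∑' j, G j 0 * s ^ j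

/-- The part of the value coming from the second column, divided by `t`. -/
noncomputable def c1 (s : ℝ≥0∞) (G : Arr) : ℝ≥0∞ := ∑' j, G j 1 * s ^ j

/-- The part of the value coming from the first row. -/
noncomputable def r0 (t : ℝ≥0∞) (G : Arr) : ℝ≥0∞ := ∑' k, G 0 k * t ^ k

theorem ev_add (s t : ℝ≥0∞) (A B : Arr) :
    ev s t (fun j k => A j k + B j k) = ev s t A + ev s t B := by
  unfold ev
  simp_rw [add_mul, ENNReal.tsum_add]

theorem ev_mul (s t c : ℝ≥0∞) (A : Arr) :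
    ev s t (fun j k => c * A j k) = c * ev s t A := by
  unfold ev
  simp_rw [mul_assoc, ENNReal.tsum_mul_left]

/-- The rows but the first. -/
def shr (G : Arr) : Arr := fun j k => G (j + 1) k

/-- The columns but the first two. -/
def shc (G : Arr) : Arr := fun j k => G j (k + 2)

theorem ev_row (s t : ℝ≥0∞) (G : Arr) : ev s t G = r0 t G + s * ev s t (shr G) := by
  unfold ev r0 shr
  rw [tsum_eq_zero_add' ENNReal.summable]
  congr 1
  · simp
  · rw [← ENNReal.tsum_mul_left]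
    refine tsum_congr fun j => ?_
    rw [← ENNReal.tsum_mul_left]
    refine tsum_congr fun k => ?_
    rw [pow_succ]
    ring

theorem ev_col (s t : ℝ≥0∞) (G : Arr) :
    ev s t G = c0 s G + (t * c1 s G + t ^ 2 * ev s t (shc G)) := by
  have h : ∀ j, ∑' k, G j k * (s ^ j * t ^ k) =
      G j 0 * s ^ j + (t * (G j 1 * s ^ j) + t ^ 2 * ∑' k, shc G j k * (s ^ j * t ^ k)) := by
    intro j
    rw [tsum_eq_zero_add' ENNReal.summable, tsum_eq_zero_add' ENNReal.summable]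
    congr 1
    · simp
    · congr 1
      · simp only [zero_add, pow_one]; ring
      · rw [← ENNReal.tsum_mul_left]
        refine tsum_congr fun k => ?_
        unfold shc
        rw [show k + 1 + 1 = k + 2 from rfl, pow_add]
        ring
  unfold ev c0 c1
  simp_rw [h]
  rw [ENNReal.tsum_add, ENNReal.tsum_add, ENNReal.tsum_mul_left, ENNReal.tsum_mul_left]

theorem tsum_s1 (s : ℝ≥0∞) (f : ℕ → ℝ≥0∞) (g : ℕ → ℝ≥0∞) (h0 : g 0 = f 0)
    (h1 : ∀ j, g (j + 1) = f (j + 1) + f j) : ∑' j, g j * s ^ j = (1 + s) * ∑' j, f j * s ^ j := by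
  have h2 : ∀ j, f j * s ^ (j + 1) = s * (f j * s ^ j) := fun j => by rw [pow_succ]; ring
  rw [tsum_eq_zero_add' ENNReal.summable (f := fun j => g j * s ^ j)]
  simp_rw [h1, add_mul, ENNReal.tsum_add, h2, ENNReal.tsum_mul_left]
  rw [one_mul, h0, ← add_assoc]
  congr 1
  exact (tsum_eq_zero_add' ENNReal.summable (f := fun j => f j * s ^ j)).symm

theorem c1_s1 (s : ℝ≥0∞) (G : Arr) : c1 s (s1 G) = (1 + s) * c1 s G :=
  tsum_s1 s (fun j => G j 1) (fun j => s1 G j 1) rfl (fun _ => rfl)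

theorem ev_eq' (s t : ℝ≥0∞) (G : Arr) :
    ev s t G = ∑' j, (∑' k, G j k * t ^ k) * s ^ j := by
  unfold ev
  refine tsum_congr fun j => ?_
  rw [← ENNReal.tsum_mul_right]
  refine tsum_congr fun k => ?_
  ring

theorem ev_s1 (s t : ℝ≥0∞) (G : Arr) : ev s t (s1 G) = (1 + s) * ev s t G := by
  rw [ev_eq', ev_eq']
  refine tsum_s1 s (fun j => ∑' k, G j k * t ^ k) (fun j => ∑' k, s1 G j k * t ^ k) rfl ?_
  intro j
  simp only [s1]
  simp_rw [add_mul, ENNReal.tsum_add]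

theorem shc_s1 (G : Arr) : shc (s1 G) = s1 (shc G) := by
  funext j k
  cases j <;> rfl

theorem ev_tm (s t : ℝ≥0∞) (G : Arr) : ev s t (tm G) = t * ev s t G := by
  unfold ev
  rw [← ENNReal.tsum_mul_left]
  refine tsum_congr fun j => ?_
  rw [tsum_eq_zero_add' ENNReal.summable, ← ENNReal.tsum_mul_left]
  simp only [tm, zero_mul, zero_add]
  refine tsum_congr fun k => ?_
  rw [pow_succ]
  ring

theorem ev_dl (s t : ℝ≥0∞) (G : Arr) : ev s t (dl G) = ev s t G + ev s t (shr G) :=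
  ev_add s t G (shr G)

/-- The value of `tho G`. -/
theorem ev_tho (s t : ℝ≥0∞) (G : Arr) :
    ev s t (tho G) = (t + 2) * (t * c1 s G + t ^ 2 * ev s t (shc G)) + t * ev s t (shc G) := by
  -- `tho G` is the sum of three shifted arrays
  have hA : ev s t (fun j k => match k with | 0 => 0 | k + 1 => G j (k + 1)) =
      t * c1 s G + t ^ 2 * ev s t (shc G) := by
    rw [ev_col s t (fun j k => match k with | 0 => 0 | k + 1 => G j (k + 1))]
    have h0 : c0 s (fun j k => match k with | 0 => 0 | k + 1 => G j (k + 1)) = 0 := by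
      unfold c0; simp
    rw [h0, zero_add]
    rfl
  have hB : ev s t (fun j k => match k with | 0 => 0 | 1 => 0 | k + 2 => G j (k + 1)) =
      t * (t * c1 s G + t ^ 2 * ev s t (shc G)) := by
    rw [← hA, ← ev_tm]
    congr 1
    funext j k
    match k with
    | 0 => rfl
    | 1 => rfl
    | k + 2 => rfl
  have hC : ev s t (fun j k => match k with | 0 => 0 | k + 1 => G j (k + 2)) =
      t * ev s t (shc G) := by
    rw [← ev_tm]
    congr 1
    funext j k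
    match k with
    | 0 => rfl
    | k + 1 => rfl
  have hsum : tho G = fun j k =>
      ((fun j k => (fun j k => match k with | 0 => 0 | 1 => 0 | k + 2 => G j (k + 1) : Arr) j k +
        (fun j k => 2 * (fun j k => match k with | 0 => 0 | k + 1 => G j (k + 1) : Arr) j k : Arr) j k : Arr) j k +
        (fun j k => match k with | 0 => 0 | k + 1 => G j (k + 2) : Arr) j k) := by
    funext j k
    match k with
    | 0 => simp [tho]
    | 1 => simp [tho]
    | k + 2 => simp [tho]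
  rw [hsum, ev_add, ev_add, ev_mul, hA, hB, hC]
  ring

theorem ev_delta (s t : ℝ≥0∞) : ev s t (fun j k => if j = 0 ∧ k = 0 then 1 else 0) = 1 := by
  unfold ev
  rw [tsum_eq_single 0, tsum_eq_single 0]
  · simp
  · intro k hk; simp [hk]
  · intro j hj; simp [hj]

/-- The value of `Phi x G`. -/
theorem ev_Phi (x s t : ℝ≥0∞) (G : Arr) :
    ev s t (Phi x G) = 1 + x * (t * ((1 + s) * ev s t G) +
      ((t + 2) * (t * ((1 + s) * c1 s G) + t ^ 2 * ((1 + s) * ev s t (shc G))) +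
        t * ((1 + s) * ev s t (shc G))) * (ev s t G + ev s t (shr G))) := by
  have h : Phi x G = fun j k => (fun j k => if j = 0 ∧ k = 0 then 1 else 0 : Arr) j k +
      (fun j k => x * (fun j k => tm (s1 G) j k + mulA (tho (s1 G)) (dl G) j k : Arr) j k : Arr) j k := rfl
  rw [h, ev_add, ev_mul, ev_add, ev_delta, ev_mulA, ev_tm, ev_s1, ev_tho, ev_dl, c1_s1, shc_s1,
    ev_s1]

/-- The scalar inequality. -/
theorem real_step (x s t U aP bP c0 c1 Z r0 Y : ℝ) (hx : 0 ≤ x) (hs : 0 < s) (ht : 0 < t)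
    (hc0 : 1 ≤ c0) (hc1 : aP ≤ c1) (hr0 : bP ≤ r0) (hZ : 0 ≤ Z) (hY : 0 ≤ Y)
    (hc1' : 0 ≤ c1) (h1 : c0 + (t * c1 + t ^ 2 * Z) ≤ U)
    (h2 : c0 + (t * c1 + t ^ 2 * Z) = r0 + s * Y)
    (hnum : 1 + x * (t * ((1 + s) * U) + ((t + 2) * ((1 + s) * (U - 1)) +
      (1 + s) * ((U - 1 - t * aP) / t)) * (U + (U - bP) / s)) ≤ U) :
    1 + x * (t * ((1 + s) * (c0 + (t * c1 + t ^ 2 * Z))) +
      ((t + 2) * (t * ((1 + s) * c1) + t ^ 2 * ((1 + s) * Z)) + t * ((1 + s) * Z)) *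
        ((c0 + (t * c1 + t ^ 2 * Z)) + Y)) ≤ U := by
  have hs1 : 0 < 1 + s := by linarith
  have k1 : t * c1 + t ^ 2 * Z ≤ U - 1 := by linarith
  have k2 : t * Z ≤ (U - 1 - t * aP) / t := by
    rw [le_div_iff₀ ht]
    nlinarith [mul_le_mul_of_nonneg_left hc1 ht.le]
  have k3 : Y ≤ (U - bP) / s := by
    rw [le_div_iff₀ hs]
    nlinarith
  have hX0 : 0 ≤ c0 + (t * c1 + t ^ 2 * Z) := by positivity
  refine le_trans ?_ hnum
  have e1 : t * ((1 + s) * (c0 + (t * c1 + t ^ 2 * Z))) ≤ t * ((1 + s) * U) := by gcongr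
  have e2 : (t + 2) * (t * ((1 + s) * c1) + t ^ 2 * ((1 + s) * Z)) + t * ((1 + s) * Z) ≤
      (t + 2) * ((1 + s) * (U - 1)) + (1 + s) * ((U - 1 - t * aP) / t) := by
    have e3 : t * ((1 + s) * c1) + t ^ 2 * ((1 + s) * Z) = (1 + s) * (t * c1 + t ^ 2 * Z) := by ring
    have e4 : t * ((1 + s) * Z) = (1 + s) * (t * Z) := by ring
    rw [e3, e4]
    gcongr
  have e5 : (c0 + (t * c1 + t ^ 2 * Z)) + Y ≤ U + (U - bP) / s := add_le_add h1 k3
  have e6 : 0 ≤ (t + 2) * (t * ((1 + s) * c1) + t ^ 2 * ((1 + s) * Z)) + t * ((1 + s) * Z) := by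
    positivity
  have e7 := mul_le_mul e2 e5 (by positivity) (e6.trans e2)
  have e8 := mul_le_mul_of_nonneg_left (add_le_add e1 e7) hx
  linarith

open scoped NNReal in
theorem ev_Phi_le (x s t U aP bP : ℝ≥0) (hs : 0 < s) (ht : 0 < t)
    (hnum : (1 : ℝ) + x * (t * ((1 + s) * U) + ((t + 2) * ((1 + s) * (U - 1)) +
      (1 + s) * ((U - 1 - t * aP) / t)) * (U + (U - bP) / s)) ≤ U)
    (G : Arr) (h0 : 1 ≤ c0 s G) (h1 : (aP : ℝ≥0∞) ≤ c1 s G) (h2 : (bP : ℝ≥0∞) ≤ r0 t G)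
    (hU : ev s t G ≤ (U : ℝ≥0∞)) : ev s t (Phi x G) ≤ (U : ℝ≥0∞) := by
  rw [ev_Phi]
  have e1 := ev_row s t G
  have e2 := ev_col s t G
  have hs0 : (s : ℝ≥0∞) ≠ 0 := by exact_mod_cast hs.ne'
  have ht0 : (t : ℝ≥0∞) ≠ 0 := by exact_mod_cast ht.ne'
  have hXt : ev (s : ℝ≥0∞) t G ≠ ⊤ := (hU.trans_lt ENNReal.coe_lt_top).ne
  have hc0t : c0 (s : ℝ≥0∞) G ≠ ⊤ := by
    intro h; rw [h] at e2; apply hXt; rw [e2]; simp
  have hc1t : c1 (s : ℝ≥0∞) G ≠ ⊤ := by
    intro h; rw [h] at e2; apply hXt; rw [e2, ENNReal.mul_top ht0]; simp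
  have hZt : ev (s : ℝ≥0∞) t (shc G) ≠ ⊤ := by
    intro h; rw [h] at e2; apply hXt; rw [e2, ENNReal.mul_top (pow_ne_zero 2 ht0)]; simp
  have hr0t : r0 (t : ℝ≥0∞) G ≠ ⊤ := by
    intro h; rw [h] at e1; apply hXt; rw [e1]; simp
  have hYt : ev (s : ℝ≥0∞) t (shr G) ≠ ⊤ := by
    intro h; rw [h] at e1; apply hXt; rw [e1, ENNReal.mul_top hs0]; simp
  rw [e2] at hU ⊢
  rw [e1] at e2
  generalize c0 (s : ℝ≥0∞) G = C0 at *
  generalize c1 (s : ℝ≥0∞) G = C1 at *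
  generalize ev (s : ℝ≥0∞) t (shc G) = Z at *
  generalize r0 (t : ℝ≥0∞) G = R0 at *
  generalize ev (s : ℝ≥0∞) t (shr G) = Y at *
  lift C0 to ℝ≥0 using hc0t
  lift C1 to ℝ≥0 using hc1t
  lift Z to ℝ≥0 using hZt
  lift R0 to ℝ≥0 using hr0t
  lift Y to ℝ≥0 using hYt
  norm_cast at h0 h1 h2 hU e2 ⊢
  have f0 : (1 : ℝ) ≤ C0 := by exact_mod_cast h0
  have f1 : (aP : ℝ) ≤ C1 := by exact_mod_cast h1
  have f2 : (bP : ℝ) ≤ R0 := by exact_mod_cast h2
  have f3 : (C0 : ℝ) + (t * C1 + t ^ 2 * Z) ≤ U := by exact_mod_cast hU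
  have f4 : (C0 : ℝ) + (t * C1 + t ^ 2 * Z) = R0 + s * Y := by exact_mod_cast e2.symm
  have := real_step x s t U aP bP C0 C1 Z R0 Y x.2 (by exact_mod_cast hs) (by exact_mod_cast ht)
    f0 f1 f2 Z.2 Y.2 C1.2 f3 f4 hnum
  exact_mod_cast this

end Pool.Agent.TH428.Stk
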