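import Pool.Agent.TH428.Stk.Sort

/-!
Counting forests: `Fo r w` is the set of lists of `r` nonempty words whose outputs, one after the
other, form the word `w`.
-/

set_option autoImplicit false

namespace Pool.Agent.TH428.Stk

open Finset

/-- The outputs of the words of the list, the last word of the list first. -/
def flat : List (List ℕ) → List ℕ
  | [] => []
  | u :: U => flat U ++ srt u

theorem flat_append (U V : List (List ℕ)) : flat (U ++ V) = flat V ++ flat U := by
  induction U with
  | nil => simp [flat]
  | cons u U ih => simp [flat, ih]

/-- Lists of `r` nonempty words whose outputs form `w`. -/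
def Fo (r : ℕ) (w : List ℕ) : Set (List (List ℕ)) :=
  {U | U.length = r ∧ (∀ u ∈ U, u ≠ []) ∧ flat U = w}

/-- The number of elements of `Fo r w`. -/
noncomputable def cnt (r : ℕ) (w : List ℕ) : ℕ∞ := (Fo r w).encard

theorem cnt_nil (r : ℕ) : cnt r [] = if r = 0 then 1 else 0 := by
  unfold cnt
  split_ifs with h
  · subst h
    have : Fo 0 [] = {[]} := by
      ext U
      simp only [Fo, Set.mem_ofPred_eq, Set.mem_singleton_iff]
      constructor
      · rintro ⟨h, -, -⟩; exact List.length_eq_zero_iff.1 h
      · rintro rfl; simp [flat]
    rw [this, Set.encard_singleton]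
  · have : Fo r [] = ∅ := by
      ext U
      simp only [Fo, Set.mem_ofPred_eq, Set.mem_empty_iff_false, iff_false]
      rintro ⟨h1, h2, h3⟩
      cases U with
      | nil => simp at h1; exact h h1.symm
      | cons u U =>
        simp only [flat, List.append_eq_nil_iff] at h3
        exact h2 u (by simp) (srt_eq_nil.1 h3.2)
    rw [this, Set.encard_empty]

theorem cnt_zero {w : List ℕ} (hw : w ≠ []) : cnt 0 w = 0 := by
  unfold cnt
  have : Fo 0 w = ∅ := by
    ext U
    simp only [Fo, Set.mem_ofPred_eq, Set.mem_empty_iff_false, iff_false]
    rintro ⟨h1, -, h3⟩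
    rw [List.length_eq_zero_iff.1 h1] at h3
    exact hw h3.symm
  rw [this, Set.encard_empty]

theorem fiber_le {w : List ℕ} (hw : w ≠ []) : {u | srt u = w}.encard ≤ cnt 1 w := by
  unfold cnt
  have hinj : Function.Injective (fun u : List ℕ => [u]) := fun a b h => by simpa using h
  rw [← hinj.encard_image]
  apply Set.encard_le_encard
  rintro _ ⟨u, hu, rfl⟩
  refine ⟨rfl, ?_, ?_⟩
  · intro v hv
    simp only [List.mem_singleton] at hv
    subst hv
    rintro rfl
    simp only [Set.mem_ofPred_eq, srt_nil] at hu
    exact hw hu.symm
  · simpa [flat] using hu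

/-- In a factor `u` with output containing the letter `m`, where all other letters are smaller,
`m` is the last letter of the output. -/
theorem flat_split {U : List (List ℕ)} (hU : ∀ u ∈ U, u ≠ []) {L R : List ℕ} {m : ℕ}
    (hL : ∀ x ∈ L, x < m) (hR : ∀ x ∈ R, x < m) (h : flat U = L ++ m :: R) :
    ∃ V W, U = V ++ W ∧ flat V = R ∧ flat W = L ++ [m] := by
  induction U generalizing R with
  | nil => simp [flat] at h
  | cons u U ih =>
    simp only [flat] at h
    rw [List.append_eq_append_iff] at h
    rcases h with ⟨c, hc1, hc2⟩ | ⟨c, hc1, hc2⟩
    · -- `L = flat U ++ c`, `srt u = c ++ m :: R`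
      have hune : u ≠ [] := hU u (by simp)
      obtain ⟨L', R', h1, h2, h3, h4⟩ := exists_split hune
      have hmu : m ∈ u := by
        rw [← mem_srt, hc2]; simp
      have hmax : mx u = m := by
        apply le_antisymm
        · have : mx u ∈ c ++ m :: R := by rw [← hc2, mem_srt]; exact mx_mem hune
          simp only [List.mem_append, List.mem_cons] at this
          rcases this with h | h | h
          · exact (hL _ (by rw [hc1]; simp [h])).le
          · exact h.le
          · exact (hR _ h).le
        · exact le_mx hmu
      have hRnil : R = [] := by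
        by_contra hne
        have hlast : (c ++ m :: R).getLast (by simp) = m := by
          have : (srt u).getLast? = some m := by
            rw [h4, hmax]; simp
          rw [hc2] at this
          rw [List.getLast?_eq_some_getLast (by simp)] at this
          simpa using this
        have h5 : (c ++ m :: R).getLast (by simp) = R.getLast hne := by
          rw [List.getLast_append_of_ne_nil (by simp) (by simp), List.getLast_cons hne]
        rw [h5] at hlast
        exact lt_irrefl m (hR m (hlast ▸ List.getLast_mem hne))
      subst hRnil
      refine ⟨[], u :: U, by simp, by simp [flat], ?_⟩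
      simp only [flat, hc2, hc1]
      simp
    · -- `flat U = L ++ c`, `m :: R = c ++ srt u`
      cases c with
      | nil =>
        simp only [List.append_nil, List.nil_append] at hc1 hc2
        -- `srt u = m :: R`
        have := hc2
        have hune : u ≠ [] := hU u (by simp)
        obtain ⟨L', R', h1, h2, h3, h4⟩ := exists_split hune
        have hmu : m ∈ u := by rw [← mem_srt, ← hc2]; simp
        have hmax : mx u = m := by
          apply le_antisymm
          · have : mx u ∈ m :: R := by rw [hc2, mem_srt]; exact mx_mem hune
            simp only [List.mem_cons] at this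
            rcases this with h | h
            · exact h.le
            · exact (hR _ h).le
          · exact le_mx hmu
        have hRnil : R = [] := by
          by_contra hne
          have hlast : (m :: R).getLast (by simp) = m := by
            have : (srt u).getLast? = some m := by
              rw [h4, hmax]; simp
            rw [← hc2] at this
            rw [List.getLast?_eq_some_getLast (by simp)] at this
            simpa using this
          rw [List.getLast_cons hne] at hlast
          exact lt_irrefl m (hR m (hlast ▸ List.getLast_mem hne))
        subst hRnil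
        refine ⟨[], u :: U, by simp, by simp [flat], ?_⟩
        simp only [flat, hc1, ← hc2]
      | cons d c =>
        simp only [List.cons_append, List.cons.injEq] at hc2
        obtain ⟨rfl, hc2⟩ := hc2
        have hR' : ∀ x ∈ c, x < m := fun x hx => hR x (by rw [hc2]; simp [hx])
        obtain ⟨V, W, h1, h2, h3⟩ := ih (fun v hv => hU v (by simp [hv])) hR' hc1
        refine ⟨u :: V, W, by simp [h1], ?_, h3⟩
        simp [flat, h2, hc2]

theorem encard_biUnion_le' {ι α : Type*} (s : Finset ι) (f : ι → Set α) :
    (⋃ i ∈ s, f i).encard ≤ ∑ i ∈ s, (f i).encard := by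
  classical
  induction s using Finset.induction_on with
  | empty => simp
  | insert a s ha ih =>
    rw [Finset.sum_insert ha, Finset.set_biUnion_insert]
    exact (Set.encard_union_le _ _).trans (by gcongr)

theorem cnt_split {L R : List ℕ} {m : ℕ} (hL : ∀ x ∈ L, x < m) (hR : ∀ x ∈ R, x < m) (r : ℕ) :
    cnt r (L ++ m :: R) ≤ ∑ p ∈ antidiagonal r, cnt p.1 (L ++ [m]) * cnt p.2 R := by
  have hsub : Fo r (L ++ m :: R) ⊆
      ⋃ p ∈ antidiagonal r, (fun q : List (List ℕ) × List (List ℕ) => q.2 ++ q.1) ''
        (Fo p.1 (L ++ [m]) ×ˢ Fo p.2 R) := by
    rintro U ⟨h1, h2, h3⟩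
    obtain ⟨V, W, hVW, hV, hW⟩ := flat_split h2 hL hR h3
    simp only [Set.mem_iUnion]
    refine ⟨(W.length, V.length), ?_, (W, V), ⟨⟨rfl, ?_, hW⟩, ⟨rfl, ?_, hV⟩⟩, hVW.symm⟩
    · rw [HasAntidiagonal.mem_antidiagonal, ← h1, hVW, List.length_append]; omega
    · intro u hu; exact h2 u (by rw [hVW]; simp [hu])
    · intro u hu; exact h2 u (by rw [hVW]; simp [hu])
  refine (Set.encard_le_encard hsub).trans ((encard_biUnion_le' _ _).trans ?_)
  apply Finset.sum_le_sum
  intro p _
  refine (Set.encard_image_le _ _).trans ?_
  rw [Set.encard_prod]
  rfl

theorem cnt_last (L : List ℕ) (m : ℕ) (r : ℕ) :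
    cnt (r + 1) (L ++ [m]) ≤ cnt r L + 2 * cnt (r + 1) L + cnt (r + 2) L := by
  let f0 : List (List ℕ) → List (List ℕ) := fun T => [m] :: T
  let f1 : List (List ℕ) → List (List ℕ) := fun T => match T with
    | [] => []
    | A :: T => (A ++ [m]) :: T
  let f2 : List (List ℕ) → List (List ℕ) := fun T => match T with
    | [] => []
    | B :: T => (m :: B) :: T
  let f3 : List (List ℕ) → List (List ℕ) := fun T => match T with
    | B :: A :: T => (A ++ m :: B) :: T
    | _ => []
  have hsub : Fo (r + 1) (L ++ [m]) ⊆
      ((f0 '' Fo r L ∪ f1 '' Fo (r + 1) L) ∪ f2 '' Fo (r + 1) L) ∪ f3 '' Fo (r + 2) L := by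
    rintro U ⟨h1, h2, h3⟩
    cases U with
    | nil => simp at h1
    | cons u U =>
      have hune : u ≠ [] := h2 u (by simp)
      obtain ⟨A, B, hA1, hA2, hA3, hA4⟩ := exists_split hune
      simp only [flat, hA4] at h3
      have h4 : flat U ++ (srt A ++ srt B) = L ∧ mx u = m := by
        have : (flat U ++ (srt A ++ srt B)) ++ [mx u] = L ++ [m] := by
          rw [← h3]; simp
        have := List.append_inj' this rfl
        exact ⟨this.1, by simpa using this.2⟩
      obtain ⟨h4, h5⟩ := h4
      rw [h5] at hA1
      simp only [List.length_cons, Nat.add_right_cancel_iff] at h1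
      have hU : ∀ v ∈ U, v ≠ [] := fun v hv => h2 v (by simp [hv])
      by_cases hA : A = []
      · by_cases hB : B = []
        · subst hA hB
          left; left; left
          refine ⟨U, ⟨h1, hU, by simpa using h4⟩, ?_⟩
          simp [f0, hA1]
        · subst hA
          left; right
          refine ⟨B :: U, ⟨by simp [h1], ?_, by simpa [flat] using h4⟩, ?_⟩
          · intro v hv
            simp only [List.mem_cons] at hv
            rcases hv with rfl | hv
            · exact hB
            · exact hU v hv
          · simp [f2, hA1]
      · by_cases hB : B = []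
        · subst hB
          left; left; right
          refine ⟨A :: U, ⟨by simp [h1], ?_, by simpa [flat] using h4⟩, ?_⟩
          · intro v hv
            simp only [List.mem_cons] at hv
            rcases hv with rfl | hv
            · exact hA
            · exact hU v hv
          · simp [f1, hA1]
        · right
          refine ⟨B :: A :: U, ⟨by simp [h1], ?_, by simpa [flat] using h4⟩, ?_⟩
          · intro v hv
            simp only [List.mem_cons] at hv
            rcases hv with rfl | rfl | hv
            · exact hB
            · exact hA
            · exact hU v hv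
          · simp [f3, hA1]
  calc cnt (r + 1) (L ++ [m]) ≤ _ := Set.encard_le_encard hsub
    _ ≤ ((cnt r L + cnt (r + 1) L) + cnt (r + 1) L) + cnt (r + 2) L := by
      refine (Set.encard_union_le _ _).trans (add_le_add ?_ (Set.encard_image_le _ _))
      refine (Set.encard_union_le _ _).trans (add_le_add ?_ (Set.encard_image_le _ _))
      exact (Set.encard_union_le _ _).trans
        (add_le_add (Set.encard_image_le _ _) (Set.encard_image_le _ _))
    _ = _ := by rw [two_mul]; ring

end Pool.Agent.TH428.Stk
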