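import Pool.Agent.TH428.Stk.Obj

/-!
The functional inequality for the generating function of the trees, and the bound for the number
of words sorted by three passes.
-/

set_option autoImplicit false

namespace Pool.Agent.TH428.Stk

open Finset Obj
open scoped ENNReal

/-! ### The number of words sorted by three passes -/

/-- The permutations of `0, ..., n-1` sorted by two passes. -/
def P2 (n : ℕ) : Finset (List ℕ) :=
  ((List.range n).permutations.toFinset).filter (fun w => srt (srt w) = List.range n)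

theorem mem_P2 {n : ℕ} {w : List ℕ} :
    w ∈ P2 n ↔ w.Perm (List.range n) ∧ srt (srt w) = List.range n := by
  simp [P2, List.mem_permutations]

theorem P2_nodup {n : ℕ} {w : List ℕ} (h : w ∈ P2 n) : w.Nodup :=
  (mem_P2.1 h).1.nodup_iff.2 List.nodup_range

theorem P2_av {n : ℕ} {w : List ℕ} (h : w ∈ P2 n) : Av (srt w) := by
  apply av_of_srt_sorted
  · exact (srt_perm w).nodup_iff.2 (P2_nodup h)
  · rw [(mem_P2.1 h).2]
    exact List.pairwise_lt_range

theorem count_le (n : ℕ) (hn : n ≠ 0) :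
    {w : List ℕ | w.Perm (List.range n) ∧ srt (srt (srt w)) = List.range n}.encard ≤
      ((∑ o ∈ (Hs (n + 1)).filter (fun o => o.size = n), o.M 1 : ℕ) : ℕ∞) := by
  have hsub : {w : List ℕ | w.Perm (List.range n) ∧ srt (srt (srt w)) = List.range n} ⊆
      ⋃ v ∈ P2 n, {u | srt u = v} := by
    rintro w ⟨h1, h2⟩
    simp only [Set.mem_iUnion]
    refine ⟨srt w, mem_P2.2 ⟨(srt_perm w).trans h1, h2⟩, rfl⟩
  refine (Set.encard_le_encard hsub).trans ((encard_biUnion_le' _ _).trans ?_)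
  have h1 : ∀ v ∈ P2 n, {u | srt u = v}.encard ≤ (((Th v).M 1 : ℕ) : ℕ∞) := by
    intro v hv
    have hvn : v ≠ [] := by
      rintro rfl
      have := (mem_P2.1 hv).1.length_eq
      simp at this
      omega
    exact (fiber_le hvn).trans (cnt_le_M (P2_nodup hv) 1)
  refine (Finset.sum_le_sum h1).trans ?_
  rw [← Nat.cast_sum, Nat.cast_le]
  have hinj : Set.InjOn Th (P2 n : Set (List ℕ)) := by
    intro v hv w hw hvw
    exact Th_inj (P2_nodup hv) (P2_av hv) w (P2_nodup hw) (P2_av hw)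
      ((mem_P2.1 hv).1.trans (mem_P2.1 hw).1.symm) hvw
  rw [← Finset.sum_image (f := fun o : Obj => o.M 1) hinj]
  apply Finset.sum_le_sum_of_subset
  intro o ho
  rw [Finset.mem_image] at ho
  obtain ⟨v, hv, rfl⟩ := ho
  have hlen : v.length = n := by
    rw [(mem_P2.1 hv).1.length_eq, List.length_range]
  rw [Finset.mem_filter]
  exact ⟨Th_mem (P2_nodup hv) (P2_av hv) _ (by omega), by rw [size_Th (P2_nodup hv), hlen]⟩

/-! ### Arrays and operators -/

/-- Arrays of coefficients, the first index for `s`, the second for `t`. -/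
abbrev Arr : Type := ℕ → ℕ → ℝ≥0∞

/-- Multiplication by `1 + s`. -/
noncomputable def s1 (G : Arr) : Arr
  | 0, k => G 0 k
  | j + 1, k => G (j + 1) k + G j k

/-- The operator `(1 + t)^2 h / t - h_1` for `h = G - G_0`. -/
noncomputable def tho (G : Arr) : Arr
  | _, 0 => 0
  | j, 1 => 2 * G j 1 + G j 2
  | j, k + 2 => G j (k + 1) + 2 * G j (k + 2) + G j (k + 3)

/-- The operator `G + (G - G|_{s=0}) / s`. -/
noncomputable def dl (G : Arr) : Arr := fun j k => G j k + G (j + 1) k

/-- Multiplication by `t`. -/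
noncomputable def tm (G : Arr) : Arr
  | _, 0 => 0
  | j, k + 1 => G j k

/-- The product. -/
noncomputable def mulA (A B : Arr) : Arr :=
  fun j k => ∑ a ∈ antidiagonal j, ∑ p ∈ antidiagonal k, A a.1 p.1 * B a.2 p.2

/-- The operator of the functional equation. -/
noncomputable def Phi (x : ℝ≥0∞) (G : Arr) : Arr :=
  fun j k => (if j = 0 ∧ k = 0 then 1 else 0) + x * (tm (s1 G) j k + mulA (tho (s1 G)) (dl G) j k)

theorem s1_mono {G G' : Arr} (h : ∀ j k, G j k ≤ G' j k) : ∀ j k, s1 G j k ≤ s1 G' j k := by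
  intro j k
  cases j with
  | zero => exact h 0 k
  | succ j => exact add_le_add (h _ _) (h _ _)

theorem tho_mono {G G' : Arr} (h : ∀ j k, G j k ≤ G' j k) : ∀ j k, tho G j k ≤ tho G' j k := by
  intro j k
  match k with
  | 0 => exact le_rfl
  | 1 => exact add_le_add (by gcongr; exact h _ _) (h _ _)
  | k + 2 => exact add_le_add (add_le_add (h _ _) (by gcongr; exact h _ _)) (h _ _)

theorem dl_mono {G G' : Arr} (h : ∀ j k, G j k ≤ G' j k) : ∀ j k, dl G j k ≤ dl G' j k :=
  fun j k => add_le_add (h _ _) (h _ _)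

theorem tm_mono {G G' : Arr} (h : ∀ j k, G j k ≤ G' j k) : ∀ j k, tm G j k ≤ tm G' j k := by
  intro j k
  cases k with
  | zero => exact le_rfl
  | succ k => exact h _ _

theorem mulA_mono {A A' B B' : Arr} (hA : ∀ j k, A j k ≤ A' j k) (hB : ∀ j k, B j k ≤ B' j k) :
    ∀ j k, mulA A B j k ≤ mulA A' B' j k := by
  intro j k
  unfold mulA
  exact Finset.sum_le_sum fun a _ => Finset.sum_le_sum fun p _ => mul_le_mul' (hA _ _) (hB _ _)

theorem Phi_mono (x : ℝ≥0∞) {G G' : Arr} (h : ∀ j k, G j k ≤ G' j k) :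
    ∀ j k, Phi x G j k ≤ Phi x G' j k := by
  intro j k
  unfold Phi
  gcongr
  · exact tm_mono (s1_mono h) j k
  · exact mulA_mono (tho_mono (s1_mono h)) (dl_mono h) j k

theorem s1_sum {ι : Type*} (S : Finset ι) (f : ι → Arr) :
    s1 (fun j k => ∑ o ∈ S, f o j k) = fun j k => ∑ o ∈ S, s1 (f o) j k := by
  funext j k
  cases j with
  | zero => rfl
  | succ j => simp only [s1, Finset.sum_add_distrib]

theorem tho_sum {ι : Type*} (S : Finset ι) (f : ι → Arr) :
    tho (fun j k => ∑ o ∈ S, f o j k) = fun j k => ∑ o ∈ S, tho (f o) j k := by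
  funext j k
  match k with
  | 0 => simp [tho]
  | 1 => simp only [tho, Finset.sum_add_distrib, Finset.mul_sum]
  | k + 2 => simp only [tho, Finset.sum_add_distrib, Finset.mul_sum]

theorem dl_sum {ι : Type*} (S : Finset ι) (f : ι → Arr) :
    dl (fun j k => ∑ o ∈ S, f o j k) = fun j k => ∑ o ∈ S, dl (f o) j k := by
  funext j k
  simp only [dl, Finset.sum_add_distrib]

theorem tm_sum {ι : Type*} (S : Finset ι) (f : ι → Arr) :
    tm (fun j k => ∑ o ∈ S, f o j k) = fun j k => ∑ o ∈ S, tm (f o) j k := by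
  funext j k
  cases k with
  | zero => simp [tm]
  | succ k => rfl

theorem mulA_sum {ι : Type*} (S : Finset ι) (f g : ι → Arr) (j k : ℕ) :
    mulA (fun j k => ∑ o ∈ S, f o j k) (fun j k => ∑ o ∈ S, g o j k) j k =
      ∑ l ∈ S, ∑ r ∈ S, mulA (f l) (g r) j k := by
  unfold mulA
  simp only [Finset.sum_mul_sum]
  rw [show (∑ l ∈ S, ∑ r ∈ S, ∑ a ∈ antidiagonal j, ∑ p ∈ antidiagonal k,
      f l a.1 p.1 * g r a.2 p.2) = ∑ a ∈ antidiagonal j, ∑ p ∈ antidiagonal k,
      ∑ l ∈ S, ∑ r ∈ S, f l a.1 p.1 * g r a.2 p.2 from ?_]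
  calc (∑ l ∈ S, ∑ r ∈ S, ∑ a ∈ antidiagonal j, ∑ p ∈ antidiagonal k,
      f l a.1 p.1 * g r a.2 p.2) = ∑ l ∈ S, ∑ a ∈ antidiagonal j, ∑ r ∈ S, ∑ p ∈ antidiagonal k,
      f l a.1 p.1 * g r a.2 p.2 := by
        refine Finset.sum_congr rfl fun l _ => ?_
        rw [Finset.sum_comm]
    _ = ∑ a ∈ antidiagonal j, ∑ l ∈ S, ∑ r ∈ S, ∑ p ∈ antidiagonal k,
      f l a.1 p.1 * g r a.2 p.2 := Finset.sum_comm
    _ = ∑ a ∈ antidiagonal j, ∑ l ∈ S, ∑ p ∈ antidiagonal k, ∑ r ∈ S,
      f l a.1 p.1 * g r a.2 p.2 := by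
        refine Finset.sum_congr rfl fun a _ => Finset.sum_congr rfl fun l _ => ?_
        rw [Finset.sum_comm]
    _ = _ := by
        refine Finset.sum_congr rfl fun a _ => ?_
        rw [Finset.sum_comm]

/-! ### The generating function of the trees -/

/-- The weight of a tree. -/
noncomputable def wt (x : ℝ≥0∞) (o : Obj) : Arr :=
  fun j k => x ^ o.size * (o.C.choose j : ℝ≥0∞) * (o.M k : ℝ≥0∞)

/-- The generating function of the trees of height less than `N`. -/
noncomputable def FN (x : ℝ≥0∞) (N : ℕ) : Arr := fun j k => ∑ o ∈ Hs N, wt x o j k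

theorem size_mem_gp (o : Obj) : o.size ∈ o.gp := by
  cases o with
  | nil => simp [size, gp]
  | node l r d => simp [size, gp]

theorem card_gp_le (o : Obj) : o.gp.card ≤ o.C + 1 := by
  induction o with
  | nil => simp [gp, C]
  | node l r d ihl ihr =>
    simp only [gp, C]
    have h1 : (l.gp.filter (· < l.size)).card ≤ l.C := by
      have h2 : (l.gp.filter (· < l.size)) ⊆ l.gp.erase l.size := by
        intro q hq
        rw [Finset.mem_filter] at hq
        rw [Finset.mem_erase]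
        exact ⟨by omega, hq.1⟩
      have h3 := Finset.card_le_card h2
      rw [Finset.card_erase_of_mem (size_mem_gp l)] at h3
      omega
    have h4 : ((r.gp.filter (d ≤ ·)).image (l.size + ·)).card ≤ (r.gp.filter (d ≤ ·)).card :=
      Finset.card_image_le
    have h5 := Finset.card_union_le ((l.gp.filter (· < l.size)) ∪
      ((r.gp.filter (d ≤ ·)).image (l.size + ·))) {l.size + r.size + 1}
    have h6 := Finset.card_union_le (l.gp.filter (· < l.size))
      ((r.gp.filter (d ≤ ·)).image (l.size + ·))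
    rw [Finset.card_singleton] at h5
    omega

theorem sum_rank (A : Finset ℕ) (f : ℕ → ℕ) :
    ∑ d ∈ A, f ((A.filter (d ≤ ·)).card) = ∑ i ∈ range A.card, f (i + 1) := by
  induction A using Finset.induction_on_min with
  | empty => simp
  | insert a s ha ih =>
    have hna : a ∉ s := fun h => lt_irrefl _ (ha a h)
    rw [Finset.sum_insert hna, Finset.card_insert_of_notMem hna, Finset.sum_range_succ, ← ih]
    rw [add_comm]
    congr 1
    · refine Finset.sum_congr rfl fun d hd => ?_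
      congr 2
      rw [Finset.filter_insert, if_neg (by have := ha d hd; omega)]
    · congr 1
      rw [Finset.filter_true_of_mem, Finset.card_insert_of_notMem hna]
      intro x hx
      rw [Finset.mem_insert] at hx
      rcases hx with rfl | hx
      · exact le_rfl
      · exact (ha x hx).le

theorem sum_range_choose_eq (n b : ℕ) : ∑ i ∈ range n, i.choose b = n.choose (b + 1) := by
  induction n with
  | zero => simp
  | succ n ih =>
    rw [Finset.sum_range_succ, ih, Nat.choose_succ_succ]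
    ring

theorem sum_choose_le (c : ℕ) (r : Obj) (j : ℕ) :
    ∑ d ∈ r.gp, (c + (r.gp.filter (d ≤ ·)).card).choose j ≤
      ∑ a ∈ antidiagonal j, (c + 1).choose a.1 * (r.C + 1).choose (a.2 + 1) := by
  have h1 := sum_rank r.gp (fun i => (c + i).choose j)
  rw [h1]
  calc ∑ i ∈ range r.gp.card, (c + (i + 1)).choose j
      ≤ ∑ i ∈ range (r.C + 1), (c + (i + 1)).choose j := by
        apply Finset.sum_le_sum_of_subset
        exact Finset.range_mono (card_gp_le r)
    _ = ∑ i ∈ range (r.C + 1), ∑ a ∈ antidiagonal j, (c + 1).choose a.1 * i.choose a.2 := by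
        refine Finset.sum_congr rfl fun i _ => ?_
        rw [← Nat.add_choose_eq]
        congr 1
        ring
    _ = _ := by
        rw [Finset.sum_comm]
        refine Finset.sum_congr rfl fun a _ => ?_
        rw [← Finset.mul_sum, sum_range_choose_eq]

theorem M_zero {l : Obj} (hl : l ≠ nil) : l.M 0 = 0 := by
  cases l with
  | nil => exact absurd rfl hl
  | node l r d => simp [M, th]

theorem s1_wt (x : ℝ≥0∞) (o : Obj) (j k : ℕ) :
    s1 (wt x o) j k = x ^ o.size * ((o.C + 1).choose j : ℝ≥0∞) * (o.M k : ℝ≥0∞) := by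
  cases j with
  | zero => simp [s1, wt]
  | succ j =>
    simp only [s1, wt]
    rw [Nat.choose_succ_succ]
    push_cast
    ring

theorem dl_wt (x : ℝ≥0∞) (o : Obj) (j k : ℕ) :
    dl (wt x o) j k = x ^ o.size * ((o.C + 1).choose (j + 1) : ℝ≥0∞) * (o.M k : ℝ≥0∞) := by
  simp only [dl, wt]
  rw [Nat.choose_succ_succ]
  push_cast
  ring

theorem tho_s1_wt (x : ℝ≥0∞) {o : Obj} (ho : o ≠ nil) (j k : ℕ) :
    tho (s1 (wt x o)) j k = x ^ o.size * ((o.C + 1).choose j : ℝ≥0∞) * (th o.M k : ℝ≥0∞) := by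
  match k with
  | 0 => simp [tho, th]
  | 1 =>
    simp only [tho, s1_wt, th, M_zero ho]
    push_cast
    ring
  | k + 2 =>
    simp only [tho, s1_wt, th]
    push_cast
    ring

theorem M_node_nil (r : Obj) (d k : ℕ) : (node nil r d).M (k + 1) = r.M k := by
  simp only [M]
  rw [Finset.sum_eq_single (1, k)]
  · simp [th]
  · rintro ⟨p, q⟩ hpq hne
    rw [HasAntidiagonal.mem_antidiagonal] at hpq
    match p with
    | 0 => simp [th]
    | 1 => exfalso; apply hne; simp only at hpq; simp; omega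
    | p + 2 => simp [th]
  · intro h
    exfalso; apply h
    rw [HasAntidiagonal.mem_antidiagonal]
    simp; omega

theorem M_node_zero (l r : Obj) (d : ℕ) : (node l r d).M 0 = 0 := by simp [M, th]

/-- The contribution of the trees with an empty left subtree. -/
theorem wt_node_nil (x : ℝ≥0∞) (r : Obj) (j k : ℕ) :
    wt x (node nil r 0) j k ≤ x * tm (s1 (wt x r)) j k := by
  cases k with
  | zero => simp [wt, M_node_zero]
  | succ k =>
    simp only [tm, s1_wt]
    simp only [wt, M_node_nil, size, C, zero_add]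
    rw [pow_succ]
    have h1 : (r.gp.filter (0 ≤ ·)).card ≤ r.C + 1 := by
      rw [Finset.filter_true_of_mem (fun _ _ => Nat.zero_le _)]
      exact card_gp_le r
    have h2 : (((r.gp.filter (0 ≤ ·)).card.choose j : ℕ) : ℝ≥0∞) ≤ (((r.C + 1).choose j : ℕ) : ℝ≥0∞) := by
      exact_mod_cast Nat.choose_le_choose j h1
    calc x ^ r.size * x * (((r.gp.filter (0 ≤ ·)).card.choose j : ℕ) : ℝ≥0∞) * (r.M k : ℝ≥0∞)
        ≤ x ^ r.size * x * (((r.C + 1).choose j : ℕ) : ℝ≥0∞) * (r.M k : ℝ≥0∞) := by gcongr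
      _ = _ := by ring

/-- The contribution of the trees with a given nonempty left subtree. -/
theorem wt_node (x : ℝ≥0∞) {l : Obj} (hl : l ≠ nil) (r : Obj) (j k : ℕ) :
    ∑ d ∈ r.gp, wt x (node l r d) j k ≤ x * mulA (tho (s1 (wt x l))) (dl (wt x r)) j k := by
  have h1 : ∑ d ∈ r.gp, wt x (node l r d) j k =
      x ^ (l.size + r.size + 1) *
        ((∑ d ∈ r.gp, (l.C + (r.gp.filter (d ≤ ·)).card).choose j : ℕ) : ℝ≥0∞) *
        ((∑ p ∈ antidiagonal k, th l.M p.1 * r.M p.2 : ℕ) : ℝ≥0∞) := by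
    rw [Nat.cast_sum, Finset.mul_sum, Finset.sum_mul]
    refine Finset.sum_congr rfl fun d _ => ?_
    simp only [wt, size, C, M]
  have h2 : mulA (tho (s1 (wt x l))) (dl (wt x r)) j k =
      x ^ (l.size + r.size) *
        ((∑ a ∈ antidiagonal j, (l.C + 1).choose a.1 * (r.C + 1).choose (a.2 + 1) : ℕ) : ℝ≥0∞) *
        ((∑ p ∈ antidiagonal k, th l.M p.1 * r.M p.2 : ℕ) : ℝ≥0∞) := by
    unfold mulA
    rw [Nat.cast_sum (antidiagonal j), Finset.mul_sum, Finset.sum_mul]
    refine Finset.sum_congr rfl fun a _ => ?_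
    rw [Nat.cast_sum, Finset.mul_sum]
    refine Finset.sum_congr rfl fun p _ => ?_
    rw [tho_s1_wt x hl, dl_wt, pow_add]
    push_cast
    ring
  rw [h1, h2]
  have h3 : ((∑ d ∈ r.gp, (l.C + (r.gp.filter (d ≤ ·)).card).choose j : ℕ) : ℝ≥0∞) ≤
      ((∑ a ∈ antidiagonal j, (l.C + 1).choose a.1 * (r.C + 1).choose (a.2 + 1) : ℕ) : ℝ≥0∞) := by
    exact_mod_cast sum_choose_le l.C r j
  calc x ^ (l.size + r.size + 1) *
        ((∑ d ∈ r.gp, (l.C + (r.gp.filter (d ≤ ·)).card).choose j : ℕ) : ℝ≥0∞) *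
        ((∑ p ∈ antidiagonal k, th l.M p.1 * r.M p.2 : ℕ) : ℝ≥0∞)
      ≤ x ^ (l.size + r.size + 1) *
        ((∑ a ∈ antidiagonal j, (l.C + 1).choose a.1 * (r.C + 1).choose (a.2 + 1) : ℕ) : ℝ≥0∞) *
        ((∑ p ∈ antidiagonal k, th l.M p.1 * r.M p.2 : ℕ) : ℝ≥0∞) := by gcongr
    _ = _ := by rw [pow_succ]; ring

theorem sum_biUnion_le' {ι α : Type*} [DecidableEq ι] [DecidableEq α] (s : Finset ι)
    (t : ι → Finset α) (f : α → ℝ≥0∞) :
    ∑ x ∈ s.biUnion t, f x ≤ ∑ i ∈ s, ∑ x ∈ t i, f x := by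
  induction s using Finset.induction_on with
  | empty => simp
  | insert a s ha ih =>
    rw [Finset.biUnion_insert, Finset.sum_insert ha]
    have h := Finset.sum_union_inter (f := f) (s₁ := t a) (s₂ := s.biUnion t)
    calc ∑ x ∈ t a ∪ s.biUnion t, f x
        ≤ ∑ x ∈ t a ∪ s.biUnion t, f x + ∑ x ∈ t a ∩ s.biUnion t, f x := le_add_right le_rfl
      _ = ∑ x ∈ t a, f x + ∑ x ∈ s.biUnion t, f x := h
      _ ≤ _ := by gcongr

theorem FN_succ_le (x : ℝ≥0∞) (N j k : ℕ) : FN x (N + 1) j k ≤ Phi x (FN x N) j k := by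
  classical
  have h0 : nil ∉ (Hs N ×ˢ Hs N).biUnion fun p => (ds p.1 p.2).image (node p.1 p.2) := by
    simp
  have hnil : wt x nil j k = if j = 0 ∧ k = 0 then 1 else 0 := by
    simp only [wt, size, C, M, pow_zero, one_mul]
    by_cases hj : j = 0
    · by_cases hk : k = 0
      · simp [hj, hk]
      · simp [hj, hk]
    · obtain ⟨j, rfl⟩ := Nat.exists_eq_succ_of_ne_zero hj
      simp
  have h1 : FN x (N + 1) j k = wt x nil j k +
      ∑ o ∈ (Hs N ×ˢ Hs N).biUnion fun p => (ds p.1 p.2).image (node p.1 p.2), wt x o j k := by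
    unfold FN
    rw [Hs, Finset.sum_insert h0]
  have h2 : ∑ o ∈ (Hs N ×ˢ Hs N).biUnion fun p => (ds p.1 p.2).image (node p.1 p.2), wt x o j k ≤
      ∑ p ∈ Hs N ×ˢ Hs N, ∑ d ∈ ds p.1 p.2, wt x (node p.1 p.2 d) j k := by
    refine (sum_biUnion_le' _ _ _).trans ?_
    refine Finset.sum_le_sum fun p _ => ?_
    rw [Finset.sum_image]
    intro a _ b _ hab
    simpa using hab
  have h3 : ∀ l ∈ Hs N, ∀ r ∈ Hs N, ∑ d ∈ ds l r, wt x (node l r d) j k ≤
      (if l = nil then x * tm (s1 (wt x r)) j k else 0) +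
        x * mulA (tho (s1 (wt x l))) (dl (wt x r)) j k := by
    intro l _ r _
    by_cases hl : l = nil
    · subst hl
      rw [ds, if_pos rfl, if_pos rfl, Finset.sum_singleton]
      exact le_add_right (wt_node_nil x r j k)
    · rw [ds, if_neg hl, if_neg hl, zero_add]
      exact wt_node x hl r j k
  rw [h1, hnil]
  unfold Phi
  gcongr
  refine h2.trans ?_
  rw [Finset.sum_product]
  refine (Finset.sum_le_sum fun l hl => Finset.sum_le_sum fun r hr => h3 l hl r hr).trans ?_
  simp only [Finset.sum_add_distrib]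
  rw [mul_add]
  apply add_le_add
  · calc ∑ l ∈ Hs N, ∑ r ∈ Hs N, (if l = nil then x * tm (s1 (wt x r)) j k else 0)
        = ∑ l ∈ Hs N, (if l = nil then ∑ r ∈ Hs N, x * tm (s1 (wt x r)) j k else 0) := by
          refine Finset.sum_congr rfl fun l _ => ?_
          split_ifs <;> simp
      _ = if nil ∈ Hs N then ∑ r ∈ Hs N, x * tm (s1 (wt x r)) j k else 0 := by
          rw [Finset.sum_ite_eq']
      _ ≤ ∑ r ∈ Hs N, x * tm (s1 (wt x r)) j k := by split_ifs <;> simp
      _ = x * tm (s1 (FN x N)) j k := by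
          have e : FN x N = fun j k => ∑ o ∈ Hs N, wt x o j k := rfl
          rw [e, s1_sum, tm_sum, Finset.mul_sum]
  · apply le_of_eq
    have e : FN x N = fun j k => ∑ o ∈ Hs N, wt x o j k := rfl
    rw [e, s1_sum, tho_sum, dl_sum, mulA_sum, Finset.mul_sum]
    refine Finset.sum_congr rfl fun l _ => ?_
    rw [Finset.mul_sum]

theorem sum_le_FN (x : ℝ≥0∞) (n : ℕ) :
    ((∑ o ∈ (Hs (n + 1)).filter (fun o => o.size = n), o.M 1 : ℕ) : ℝ≥0∞) * x ^ n ≤
      FN x (n + 1) 0 1 := by
  unfold FN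
  push_cast
  rw [Finset.sum_mul]
  calc ∑ o ∈ (Hs (n + 1)).filter (fun o => o.size = n), (o.M 1 : ℝ≥0∞) * x ^ n
      = ∑ o ∈ (Hs (n + 1)).filter (fun o => o.size = n), wt x o 0 1 := by
        refine Finset.sum_congr rfl fun o ho => ?_
        rw [Finset.mem_filter] at ho
        simp only [wt, Nat.choose_zero_right, Nat.cast_one, mul_one, ho.2]
        ring
    _ ≤ _ := Finset.sum_le_sum_of_subset (Finset.filter_subset _ _)

end Pool.Agent.TH428.Stk
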