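import Pool.Agent.TH428.Stk.Eval

/-!
The abstract bound: a subsolution `P` and a scalar inequality bound the numbers of words sorted by
three passes.
-/

set_option autoImplicit false

namespace Pool.Agent.TH428.Stk

open Finset Obj
open scoped ENNReal NNReal

/-- The iterates of `Phi` from `P`. -/
noncomputable def GN (x : ℝ≥0∞) (P : Arr) : ℕ → Arr
  | 0 => P
  | N + 1 => Phi x (GN x P N)

theorem P_le_GN {x : ℝ≥0∞} {P : Arr} (hP : ∀ j k, P j k ≤ Phi x P j k) (N : ℕ) :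
    ∀ j k, P j k ≤ GN x P N j k := by
  induction N with
  | zero => intro j k; exact le_rfl
  | succ N ih => intro j k; exact (hP j k).trans (Phi_mono x ih j k)

theorem FN_le_GN {x : ℝ≥0∞} {P : Arr} (N : ℕ) :
    ∀ j k, FN x N j k ≤ GN x P N j k := by
  induction N with
  | zero => intro j k; simp [FN, Hs]
  | succ N ih => intro j k; exact (FN_succ_le x N j k).trans (Phi_mono x ih j k)

theorem c0_mono {s : ℝ≥0∞} {G G' : Arr} (h : ∀ j k, G j k ≤ G' j k) : c0 s G ≤ c0 s G' :=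
  ENNReal.tsum_le_tsum fun j => mul_le_mul' (h _ _) le_rfl

theorem c1_mono {s : ℝ≥0∞} {G G' : Arr} (h : ∀ j k, G j k ≤ G' j k) : c1 s G ≤ c1 s G' :=
  ENNReal.tsum_le_tsum fun j => mul_le_mul' (h _ _) le_rfl

theorem r0_mono {t : ℝ≥0∞} {G G' : Arr} (h : ∀ j k, G j k ≤ G' j k) : r0 t G ≤ r0 t G' :=
  ENNReal.tsum_le_tsum fun j => mul_le_mul' (h _ _) le_rfl

theorem ev_GN_le (x s t U aP bP : ℝ≥0) (hs : 0 < s) (ht : 0 < t)
    (hnum : (1 : ℝ) + x * (t * ((1 + s) * U) + ((t + 2) * ((1 + s) * (U - 1)) +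
      (1 + s) * ((U - 1 - t * aP) / t)) * (U + (U - bP) / s)) ≤ U)
    (P : Arr) (hP : ∀ j k, P j k ≤ Phi x P j k)
    (h0 : 1 ≤ c0 s P) (h1 : (aP : ℝ≥0∞) ≤ c1 s P) (h2 : (bP : ℝ≥0∞) ≤ r0 t P)
    (hU : ev s t P ≤ (U : ℝ≥0∞)) (N : ℕ) : ev s t (GN x P N) ≤ (U : ℝ≥0∞) := by
  induction N with
  | zero => exact hU
  | succ N ih =>
    have hle := P_le_GN hP N
    exact ev_Phi_le x s t U aP bP hs ht hnum _ (h0.trans (c0_mono hle)) (h1.trans (c1_mono hle))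
      (h2.trans (r0_mono hle)) ih

theorem coeff_le_ev (s t : ℝ≥0∞) (G : Arr) : G 0 1 * t ≤ ev s t G := by
  unfold ev
  have h1 : G 0 1 * t ≤ ∑' k, G 0 k * (s ^ 0 * t ^ k) := by
    have := ENNReal.le_tsum (f := fun k => G 0 k * (s ^ 0 * t ^ k)) 1
    simpa using this
  exact h1.trans (ENNReal.le_tsum (f := fun j => ∑' k, G j k * (s ^ j * t ^ k)) 0)

/-- The number of permutations of `0, ..., n-1` sorted by three passes, times `x^n`, is bounded. -/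
theorem count_bound (x s t U aP bP : ℝ≥0) (hs : 0 < s) (ht : 0 < t)
    (hnum : (1 : ℝ) + x * (t * ((1 + s) * U) + ((t + 2) * ((1 + s) * (U - 1)) +
      (1 + s) * ((U - 1 - t * aP) / t)) * (U + (U - bP) / s)) ≤ U)
    (P : Arr) (hP : ∀ j k, P j k ≤ Phi x P j k)
    (h0 : 1 ≤ c0 s P) (h1 : (aP : ℝ≥0∞) ≤ c1 s P) (h2 : (bP : ℝ≥0∞) ≤ r0 t P)
    (hU : ev s t P ≤ (U : ℝ≥0∞)) (n : ℕ) (hn : n ≠ 0) (W : ℕ)
    (hW : (W : ℕ∞) ≤
      {w : List ℕ | w.Perm (List.range n) ∧ srt (srt (srt w)) = List.range n}.encard) :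
    (W : ℝ) * (x : ℝ) ^ n * t ≤ U := by
  have k1 := hW.trans (count_le n hn)
  rw [Nat.cast_le] at k1
  have k2 := sum_le_FN (x : ℝ≥0∞) n
  have k3 : (W : ℝ≥0∞) * (x : ℝ≥0∞) ^ n * t ≤ (U : ℝ≥0∞) := by
    calc (W : ℝ≥0∞) * (x : ℝ≥0∞) ^ n * t
        ≤ ((∑ o ∈ (Hs (n + 1)).filter (fun o => o.size = n), o.M 1 : ℕ) : ℝ≥0∞) *
          (x : ℝ≥0∞) ^ n * t := by
          gcongr
      _ ≤ FN x (n + 1) 0 1 * t := by gcongr
      _ ≤ GN x P (n + 1) 0 1 * t := by gcongr; exact FN_le_GN (n + 1) 0 1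
      _ ≤ ev s t (GN x P (n + 1)) := coeff_le_ev _ _ _
      _ ≤ U := ev_GN_le x s t U aP bP hs ht hnum P hP h0 h1 h2 hU (n + 1)
  exact_mod_cast k3

end Pool.Agent.TH428.Stk
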