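import Pool.Agent.TH428.Stk.Forest

/-!
Words whose output avoids 231 are encoded by labelled binary trees.
-/

set_option autoImplicit false

namespace Pool.Agent.TH428.Stk

open Finset

/-- Binary trees whose nodes carry a natural number. -/
inductive Obj where
  | nil : Obj
  | node : Obj → Obj → ℕ → Obj
deriving DecidableEq

namespace Obj

/-- The number of nodes. -/
def size : Obj → ℕ
  | nil => 0
  | node l r _ => l.size + r.size + 1

/-- The set of gaps. -/
def gp : Obj → Finset ℕ
  | nil => {0}
  | node l r d => (l.gp.filter (· < l.size)) ∪ ((r.gp.filter (d ≤ ·)).image (l.size + ·)) ∪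
      {l.size + r.size + 1}

/-- The number of components. -/
def C : Obj → ℕ
  | nil => 0
  | node l r d => l.C + (r.gp.filter (d ≤ ·)).card

/-- The operator on coefficient sequences. -/
def th (f : ℕ → ℕ) : ℕ → ℕ
  | 0 => 0
  | k + 1 => f k + 2 * f (k + 1) + f (k + 2)

/-- The numbers of forests. -/
def M : Obj → ℕ → ℕ
  | nil => fun k => if k = 0 then 1 else 0
  | node l r _ => fun k => ∑ p ∈ antidiagonal k, th l.M p.1 * r.M p.2

theorem size_eq_zero {o : Obj} (h : o.size = 0) : o = nil := by
  cases o with
  | nil => rfl
  | node l r d => simp [size] at h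

end Obj

open Obj

/-- Admissible labels of a node with given subtrees. -/
def ds (l r : Obj) : Finset ℕ := if l = nil then {0} else r.gp

/-- The admissible trees of height less than `N`. -/
def Hs : ℕ → Finset Obj
  | 0 => ∅
  | N + 1 => insert nil ((Hs N ×ˢ Hs N).biUnion fun p => (ds p.1 p.2).image (node p.1 p.2))

theorem nil_mem_Hs (N : ℕ) : nil ∈ Hs (N + 1) := by simp [Hs]

theorem node_mem_Hs {N : ℕ} {l r : Obj} {d : ℕ} (hl : l ∈ Hs N) (hr : r ∈ Hs N)
    (hd : d ∈ ds l r) : node l r d ∈ Hs (N + 1) := by
  simp only [Hs, mem_insert, mem_biUnion, mem_product, mem_image, reduceCtorEq, false_or]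
  exact ⟨(l, r), ⟨hl, hr⟩, d, hd, rfl⟩

/-- The tree of a word. -/
def Th : List ℕ → Obj
  | [] => nil
  | (a :: l) =>
    node (Th ((a :: l).takeWhile (fun x => x != mx (a :: l))))
      (Th ((a :: l).dropWhile (fun x => x != mx (a :: l))).tail)
      (((a :: l).dropWhile (fun x => x != mx (a :: l))).tail.countP
        (· < mx ((a :: l).takeWhile (fun x => x != mx (a :: l)))))
termination_by w => w.length
decreasing_by
  · have hm : mx (a :: l) ∈ a :: l := mx_mem (by simp)
    have h1 := List.takeWhile_append_dropWhile (p := fun x => x != mx (a :: l)) (l := a :: l)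
    have h2 : (a :: l).dropWhile (fun x => x != mx (a :: l)) ≠ [] := by
      intro h
      rw [List.dropWhile_eq_nil_iff] at h
      simpa using h _ hm
    have h3 : 0 < ((a :: l).dropWhile (fun x => x != mx (a :: l))).length :=
      List.length_pos_iff.2 h2
    have h4 := congrArg List.length h1
    rw [List.length_append] at h4
    omega
  · have hm : mx (a :: l) ∈ a :: l := mx_mem (by simp)
    have h1 := List.takeWhile_append_dropWhile (p := fun x => x != mx (a :: l)) (l := a :: l)
    have h2 : (a :: l).dropWhile (fun x => x != mx (a :: l)) ≠ [] := by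
      intro h
      rw [List.dropWhile_eq_nil_iff] at h
      simpa using h _ hm
    have h3 : 0 < ((a :: l).dropWhile (fun x => x != mx (a :: l))).length :=
      List.length_pos_iff.2 h2
    have h4 := congrArg List.length h1
    rw [List.length_append] at h4
    rw [List.length_tail]
    omega

@[simp] theorem Th_nil : Th [] = nil := by rw [Th]

theorem Th_split {L R : List ℕ} {m : ℕ} (hL : ∀ x ∈ L, x < m) (hR : ∀ x ∈ R, x < m) :
    Th (L ++ m :: R) = node (Th L) (Th R) (R.countP (· < mx L)) := by
  have hmx := mx_append_cons hL hR
  have h1 : (L ++ m :: R).takeWhile (fun x => x != m) = L := by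
    rw [List.takeWhile_append_of_pos]
    · simp
    · intro x hx
      have := hL x hx
      simp only [bne_iff_ne, ne_eq]
      omega
  have h2 : (L ++ m :: R).dropWhile (fun x => x != m) = m :: R := by
    rw [List.dropWhile_append_of_pos]
    · simp
    · intro x hx
      have := hL x hx
      simp only [bne_iff_ne, ne_eq]
      omega
  obtain ⟨a, l, hal⟩ := List.exists_cons_of_ne_nil (l := L ++ m :: R) (by simp)
  rw [hal, Th, ← hal, hmx, h1, h2, List.tail_cons]

theorem size_Th {w : List ℕ} (hw : w.Nodup) : (Th w).size = w.length := by
  refine maxInd (P := fun w => (Th w).size = w.length) (by simp [size]) ?_ w hw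
  intro L m R hn hL hR ihL ihR
  rw [Th_split hL hR, size, ihL, ihR]
  simp only [List.length_append, List.length_cons]
  omega

theorem Th_eq_nil {w : List ℕ} (hw : w.Nodup) (h : Th w = nil) : w = [] := by
  have := size_Th hw
  rw [h, size] at this
  exact List.length_eq_zero_iff.1 this.symm

/-- `q` is a gap of the word `v`: the first `q` letters are smaller than all later ones. -/
def IsGap (v : List ℕ) (q : ℕ) : Prop :=
  q ≤ v.length ∧ ∀ x ∈ v.take q, ∀ y ∈ v.drop q, x < y

theorem gap_mem {w : List ℕ} (hw : w.Nodup) : ∀ q, IsGap (srt w) q → q ∈ (Th w).gp := by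
  refine maxInd (P := fun w => ∀ q, IsGap (srt w) q → q ∈ (Th w).gp) ?_ ?_ w hw
  · intro q hq
    obtain ⟨h1, -⟩ := hq
    simp only [srt_nil, List.length_nil, nonpos_iff_eq_zero] at h1
    subst h1
    simp [gp]
  · intro L m R hn hL hR ihL ihR q hq
    have hnL : L.Nodup := (List.nodup_append.1 hn).1
    have hnR : R.Nodup := (List.nodup_cons.1 (List.nodup_append.1 hn).2.1).2
    rw [srt_split hL hR] at hq
    obtain ⟨hq1, hq2⟩ := hq
    rw [Th_split hL hR, gp, size_Th hnL, size_Th hnR]
    simp only [List.length_append, length_srt, List.length_cons, List.length_nil, zero_add] at hq1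
    simp only [mem_union, mem_filter, mem_image, mem_singleton]
    rcases lt_trichotomy q (L.length + R.length + 1) with h | h | h
    · left
      by_cases h' : q < L.length
      · left
        refine ⟨ihL q ⟨by rw [length_srt]; exact h'.le, ?_⟩, h'⟩
        intro x hx y hy
        apply hq2 x _ y _
        · rw [List.append_assoc, List.take_append_of_le_length (by rw [length_srt]; exact h'.le)]
          exact hx
        · rw [List.append_assoc, List.drop_append_of_le_length (by rw [length_srt]; exact h'.le)]
          simp [hy]
      · right
        push Not at h'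
        obtain ⟨e, rfl⟩ := Nat.exists_eq_add_of_le h'
        have he : e ≤ R.length := by omega
        have htake : (srt L ++ srt R ++ [m]).take (L.length + e) = srt L ++ (srt R).take e := by
          rw [List.append_assoc, List.take_append, length_srt]
          rw [List.take_of_length_le (by rw [length_srt]; omega)]
          rw [show L.length + e - L.length = e by omega]
          rw [List.take_append_of_le_length (by rw [length_srt]; exact he)]
        have hdrop : (srt L ++ srt R ++ [m]).drop (L.length + e) = (srt R).drop e ++ [m] := by
          rw [List.append_assoc, List.drop_append, length_srt]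
          rw [List.drop_of_length_le (by rw [length_srt]; omega)]
          rw [show L.length + e - L.length = e by omega]
          rw [List.drop_append_of_le_length (by rw [length_srt]; exact he)]
          simp
        rw [htake, hdrop] at hq2
        refine ⟨e, ⟨ihR e ⟨by rw [length_srt]; exact he, ?_⟩, ?_⟩, rfl⟩
        · intro x hx y hy
          exact hq2 x (by simp [hx]) y (by simp [hy])
        · by_cases hLn : L = []
          · subst hLn
            have : List.countP (fun x => decide (x < mx [])) R = 0 := by
              rw [List.countP_eq_zero]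
              intro x _
              simp [mx]
            rw [this]; exact Nat.zero_le _
          · have ha : mx L ∈ srt L := mem_srt.2 (mx_mem hLn)
            have h1 : List.countP (fun x => decide (x < mx L)) R =
                List.countP (fun x => decide (x < mx L)) (srt R) :=
              ((srt_perm R).countP_eq _).symm
            rw [h1]
            conv_lhs => rw [← List.take_append_drop e (srt R)]
            rw [List.countP_append]
            have h2 : List.countP (fun x => decide (x < mx L)) ((srt R).drop e) = 0 := by
              rw [List.countP_eq_zero]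
              intro y hy
              have := hq2 (mx L) (by simp [ha]) y (by simp [hy])
              simp only [decide_eq_true_eq]
              omega
            have h3 : List.countP (fun x => decide (x < mx L)) ((srt R).take e) ≤ e :=
              List.countP_le_length.trans (by simp)
            omega
    · right; exact h
    · omega

theorem av_left {L R : List ℕ} {m : ℕ} (hL : ∀ x ∈ L, x < m) (hR : ∀ x ∈ R, x < m)
    (h : Av (srt (L ++ m :: R))) : Av (srt L) := by
  rw [srt_split hL hR] at h
  exact h.sublist ((List.sublist_append_left _ _).trans (List.sublist_append_left _ _))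

theorem av_right {L R : List ℕ} {m : ℕ} (hL : ∀ x ∈ L, x < m) (hR : ∀ x ∈ R, x < m)
    (h : Av (srt (L ++ m :: R))) : Av (srt R) := by
  rw [srt_split hL hR] at h
  exact h.sublist ((List.sublist_append_right _ _).trans (List.sublist_append_left _ _))

/-- Every letter of `L` but the largest is smaller than every letter of `R`. -/
theorem lt_of_av {L R : List ℕ} {m : ℕ} (hn : (L ++ m :: R).Nodup) (hL : ∀ x ∈ L, x < m)
    (hR : ∀ x ∈ R, x < m) (h : Av (srt (L ++ m :: R))) {x y : ℕ} (hx : x ∈ L) (hxm : x ≠ mx L)
    (hy : y ∈ R) : x < y := by
  rw [srt_split hL hR] at h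
  have hLn : L ≠ [] := List.ne_nil_of_mem hx
  obtain ⟨L', R', h1, h2, h3, h4⟩ := exists_split hLn
  have hx' : x ∈ srt L' ++ srt R' := by
    have : x ∈ srt L := mem_srt.2 hx
    rw [h4] at this
    simp only [List.mem_append, List.mem_singleton] at this ⊢
    tauto
  have hs1 : List.Sublist [x, mx L] (srt L) := by
    rw [h4]
    exact (List.singleton_sublist.2 hx').append (List.Sublist.refl [mx L])
  have hs2 : List.Sublist [x, mx L, y] (srt L ++ srt R ++ [m]) :=
    (hs1.append (List.singleton_sublist.2 (mem_srt.2 hy))).trans (List.sublist_append_left _ _)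
  have h5 := h _ _ _ hs2
  have h6 : x < mx L := lt_of_le_of_ne (le_mx hx) hxm
  have h7 : x ≠ y := by
    rintro rfl
    have := (List.nodup_append.1 hn).2.2 x hx x (by simp [hy])
    exact this rfl
  omega

theorem countP_gap {a : ℕ} {β : List ℕ} (ha : a ∉ β)
    (h : ∀ u v : ℕ, List.Sublist [u, v] β → ¬ (v < a ∧ a < u)) :
    (∀ x ∈ β.take (β.countP (· < a)), x < a) ∧ (∀ y ∈ β.drop (β.countP (· < a)), a < y) := by
  induction β with
  | nil => simp
  | cons b β ih =>
    have hb : a ≠ b := fun hab => ha (by simp [hab])
    have ih' := ih (fun h' => ha (by simp [h'])) (fun u v huv => h u v (huv.trans (List.sublist_cons_self _ _)))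
    rcases lt_or_gt_of_ne hb with hlt | hgt
    · -- `a < b`
      have h0 : β.countP (· < a) = 0 := by
        rw [List.countP_eq_zero]
        intro v hv
        have := h b v (List.Sublist.cons_cons b (List.singleton_sublist.2 hv))
        simp only [decide_eq_true_eq]
        omega
      have h1 : (b :: β).countP (· < a) = 0 := by
        rw [List.countP_cons, h0]
        simp; omega
      rw [h1]
      refine ⟨by simp, ?_⟩
      intro y hy
      simp only [List.drop_zero, List.mem_cons] at hy
      rcases hy with rfl | hy
      · exact hlt
      · rw [h0] at ih'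
        exact ih'.2 y (by simpa using hy)
    · have h1 : (b :: β).countP (· < a) = β.countP (· < a) + 1 := by
        rw [List.countP_cons]
        simp [hgt]
      rw [h1]
      refine ⟨?_, ?_⟩
      · intro x hx
        simp only [List.take_succ_cons, List.mem_cons] at hx
        rcases hx with rfl | hx
        · exact hgt
        · exact ih'.1 x hx
      · intro y hy
        simp only [List.drop_succ_cons] at hy
        exact ih'.2 y hy

theorem isGap_of_av {L R : List ℕ} {m : ℕ} (hn : (L ++ m :: R).Nodup) (hL : ∀ x ∈ L, x < m)
    (hR : ∀ x ∈ R, x < m) (h : Av (srt (L ++ m :: R))) :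
    IsGap (srt R) (R.countP (· < mx L)) := by
  rw [srt_split hL hR] at h
  have h1 : List.countP (fun x => decide (x < mx L)) R =
      List.countP (fun x => decide (x < mx L)) (srt R) := ((srt_perm R).countP_eq _).symm
  by_cases hLn : L = []
  · subst hLn
    have : List.countP (fun x => decide (x < mx [])) R = 0 := by
      rw [List.countP_eq_zero]
      intro x _
      simp [mx]
    rw [this]
    exact ⟨Nat.zero_le _, by simp⟩
  · have ha : mx L ∈ L := mx_mem hLn
    have ha' : mx L ∉ srt R := by
      rw [mem_srt]
      intro h'
      exact (List.nodup_append.1 hn).2.2 _ ha _ (by simp [h']) rfl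
    have h2 := countP_gap ha' (fun u v huv => by
      have hs : List.Sublist [mx L, u, v] (srt L ++ srt R ++ [m]) :=
        ((List.singleton_sublist.2 (mem_srt.2 ha)).append huv).trans
          (List.sublist_append_left _ _)
      have := h _ _ _ hs
      exact this)
    rw [h1]
    refine ⟨List.countP_le_length, ?_⟩
    intro x hx y hy
    exact (h2.1 x hx).trans (h2.2 y hy)

theorem Th_mem {w : List ℕ} (hw : w.Nodup) :
    Av (srt w) → ∀ N, w.length < N → Th w ∈ Hs N := by
  refine maxInd (P := fun w => Av (srt w) → ∀ N, w.length < N → Th w ∈ Hs N) ?_ ?_ w hw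
  · intro _ N hN
    obtain ⟨N, rfl⟩ : ∃ k, N = k + 1 := ⟨N - 1, by simp at hN; omega⟩
    simpa using nil_mem_Hs N
  · intro L m R hn hL hR ihL ihR hav N hN
    obtain ⟨N, rfl⟩ : ∃ k, N = k + 1 := ⟨N - 1, by omega⟩
    have hnL : L.Nodup := (List.nodup_append.1 hn).1
    have hnR : R.Nodup := (List.nodup_cons.1 (List.nodup_append.1 hn).2.1).2
    simp only [List.length_append, List.length_cons] at hN
    rw [Th_split hL hR]
    refine node_mem_Hs (ihL (av_left hL hR hav) N (by omega))
      (ihR (av_right hL hR hav) N (by omega)) ?_
    unfold ds
    split_ifs with h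
    · have := Th_eq_nil hnL h
      subst this
      rw [Finset.mem_singleton, List.countP_eq_zero]
      intro x _
      simp [mx]
    · exact gap_mem hnR _ (isGap_of_av hn hL hR hav)

theorem rank_iff {L R : List ℕ} {m : ℕ} (hn : (L ++ m :: R).Nodup) (hL : ∀ x ∈ L, x < m)
    (hR : ∀ x ∈ R, x < m) (h : Av (srt (L ++ m :: R))) (hLn : L ≠ []) {x : ℕ}
    (hx : x ∈ L ++ R) :
    x ∈ L ↔ ((L ++ R).countP (· < x) < L.length - 1 ∨
      (L ++ R).countP (· < x) = L.length - 1 + R.countP (· < mx L)) := by
  have hnL : L.Nodup := (List.nodup_append.1 hn).1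
  have hnR : R.Nodup := (List.nodup_cons.1 (List.nodup_append.1 hn).2.1).2
  have hdisj : ∀ y ∈ L, y ∉ R := fun y hy hy' =>
    (List.nodup_append.1 hn).2.2 y hy y (by simp [hy']) rfl
  have ha : mx L ∈ L := mx_mem hLn
  have hlen : 0 < L.length := List.length_pos_iff.2 hLn
  -- rank of the largest letter
  have hranka : L.countP (· < mx L) = L.length - 1 := by
    have h1 := List.length_eq_countP_add_countP (fun y => decide (y < mx L)) (l := L)
    have h2 : L.countP (fun y => decide ¬ (decide (y < mx L)) = true) = 1 := by
      have : L.countP (fun y => decide ¬ (decide (y < mx L)) = true) = L.count (mx L) := by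
        rw [List.count]
        apply List.countP_congr
        intro y hy
        have := le_mx hy
        simp only [decide_not, decide_eq_true_eq, Bool.not_eq_eq_eq_not, Bool.not_true,
          decide_eq_false_iff_not, beq_iff_eq]
        omega
      rw [this]
      exact List.count_eq_one_of_mem hnL ha
    omega
  have hcount : ∀ y, (L ++ R).countP (· < y) = L.countP (· < y) + R.countP (· < y) := fun y =>
    List.countP_append
  rw [List.mem_append] at hx
  constructor
  · intro hxL
    by_cases hxa : x = mx L
    · right
      rw [hcount, hxa, hranka]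
    · left
      rw [hcount]
      have h1 : R.countP (· < x) = 0 := by
        rw [List.countP_eq_zero]
        intro y hy
        have := lt_of_av hn hL hR h hxL hxa hy
        simp only [decide_eq_true_eq]
        omega
      have hlt : x < mx L := lt_of_le_of_ne (le_mx hxL) hxa
      have h2 : L.countP (· < x) < L.countP (· < mx L) := by
        have hsub : L.countP (· < x) + L.count x ≤ L.countP (· < mx L) := by
          have e : L.count x = L.countP (· == x) := rfl
          rw [e]
          have key : ∀ l : List ℕ, l.countP (· < x) + l.countP (· == x) ≤ l.countP (· < mx L) := by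
            intro l
            induction l with
            | nil => simp
            | cons b l ih =>
              simp only [List.countP_cons, decide_eq_true_eq, beq_iff_eq]
              split_ifs <;> omega
          exact key L
        rw [List.count_eq_one_of_mem hnL hxL] at hsub
        omega
      omega
  · intro hrk
    by_contra hxL
    have hxR : x ∈ R := hx.resolve_left hxL
    have hxa : x ≠ mx L := fun h' => hxL (h' ▸ ha)
    -- all letters of `L` but the largest are smaller than `x`
    have h1 : L.length - 1 ≤ L.countP (· < x) := by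
      have h2 : L.countP (· < mx L) ≤ L.countP (· < x) := by
        apply List.countP_mono_left
        intro y hy hy'
        simp only [decide_eq_true_eq] at hy' ⊢
        exact lt_of_av hn hL hR h hy (by omega) hxR
      omega
    have key : ∀ (l : List ℕ) (y z : ℕ), y < z →
        l.countP (· < y) + l.countP (· == y) ≤ l.countP (· < z) := by
      intro l y z hyz
      induction l with
      | nil => simp
      | cons b l ih =>
        simp only [List.countP_cons, decide_eq_true_eq, beq_iff_eq]
        split_ifs <;> omega
    have hpos : ∀ y ∈ L ++ R, 1 ≤ (L ++ R).countP (· == y) := by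
      intro y hy
      rw [Nat.succ_le_iff, List.countP_pos_iff]
      exact ⟨y, hy, by simp⟩
    have hpx := hpos x (by simp [hxR])
    have hpa := hpos (mx L) (by simp [ha])
    rcases hrk with hrk | hrk
    · rw [hcount] at hrk
      omega
    · have e : (L ++ R).countP (· < mx L) = L.length - 1 + R.countP (· < mx L) := by
        rw [hcount, hranka]
      rcases lt_or_gt_of_ne hxa with hlt | hgt
      · have := key (L ++ R) x (mx L) hlt
        omega
      · have := key (L ++ R) (mx L) x hgt
        omega

theorem Th_inj {w : List ℕ} (hw : w.Nodup) :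
    Av (srt w) → ∀ w' : List ℕ, w'.Nodup → Av (srt w') → w.Perm w' → Th w = Th w' → w = w' := by
  refine maxInd (P := fun w => Av (srt w) → ∀ w' : List ℕ, w'.Nodup → Av (srt w') →
    w.Perm w' → Th w = Th w' → w = w') ?_ ?_ w hw
  · intro _ w' _ _ hp _
    exact (List.nil_perm.1 hp).symm
  · intro L m R hn hL hR ihL ihR hav w' hn' hav' hp hTh
    have hne : w' ≠ [] := by
      rintro rfl
      have := hp.length_eq
      simp at this
    obtain ⟨L', R', h1, h2, h3, -⟩ := exists_split hne
    have hmm : mx w' = m := by
      apply le_antisymm
      · have : mx w' ∈ L ++ m :: R := hp.mem_iff.2 (mx_mem hne)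
        simp only [List.mem_append, List.mem_cons] at this
        rcases this with h | h | h
        · exact (hL _ h).le
        · exact h.le
        · exact (hR _ h).le
      · exact le_mx (hp.mem_iff.1 (by simp))
    rw [hmm] at h1 h2 h3
    subst h1
    have hR' : ∀ x ∈ R', x < m := by
      intro x hx
      refine lt_of_le_of_ne (h3 x hx) ?_
      rintro rfl
      exact (List.nodup_cons.1 (List.nodup_append.1 hn').2.1).1 hx
    have hL' := h2
    rw [Th_split hL hR, Th_split hL' hR'] at hTh
    simp only [Obj.node.injEq] at hTh
    obtain ⟨hTL, hTR, hd⟩ := hTh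
    have hnL : L.Nodup := (List.nodup_append.1 hn).1
    have hnR : R.Nodup := (List.nodup_cons.1 (List.nodup_append.1 hn).2.1).2
    have hnL' : L'.Nodup := (List.nodup_append.1 hn').1
    have hnR' : R'.Nodup := (List.nodup_cons.1 (List.nodup_append.1 hn').2.1).2
    have hlen : L.length = L'.length := by
      rw [← size_Th hnL, ← size_Th hnL', hTL]
    have hpLR : (L ++ R).Perm (L' ++ R') := by
      have h5 : (m :: (L ++ R)).Perm (m :: (L' ++ R')) :=
        (List.perm_middle.symm.trans hp).trans List.perm_middle
      exact h5.cons_inv
    have hmemLR : ∀ x, x ∈ L ++ R ↔ x ∈ L' ++ R' := fun x => hpLR.mem_iff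
    have hmemL : ∀ x, x ∈ L ↔ x ∈ L' := by
      by_cases hLn : L = []
      · have hLn' : L' = [] := by
          rw [← List.length_eq_zero_iff, ← hlen, hLn]; rfl
        rw [hLn, hLn']; simp
      · have hLn' : L' ≠ [] := by
          intro h
          apply hLn
          rw [← List.length_eq_zero_iff, hlen, h]; rfl
        intro x
        have hc : (L ++ R).countP (· < x) = (L' ++ R').countP (· < x) := hpLR.countP_eq _
        constructor
        · intro hx
          have hx' : x ∈ L' ++ R' := (hmemLR x).1 (by simp [hx])
          rw [rank_iff hn' hL' hR' hav' hLn' hx', ← hc, ← hlen, ← hd]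
          exact (rank_iff hn hL hR hav hLn (by simp [hx])).1 hx
        · intro hx
          have hx' : x ∈ L ++ R := (hmemLR x).2 (by simp [hx])
          rw [rank_iff hn hL hR hav hLn hx', hc, hlen, hd]
          exact (rank_iff hn' hL' hR' hav' hLn' (by simp [hx])).1 hx
    have hmemR : ∀ x, x ∈ R ↔ x ∈ R' := by
      intro x
      have e1 : x ∈ R ↔ x ∈ L ++ R ∧ x ∉ L := by
        constructor
        · intro hx
          exact ⟨by simp [hx], fun hx' =>
            (List.nodup_append.1 hn).2.2 x hx' x (by simp [hx]) rfl⟩
        · rintro ⟨h1, h2⟩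
          simp only [List.mem_append] at h1
          exact h1.resolve_left h2
      have e2 : x ∈ R' ↔ x ∈ L' ++ R' ∧ x ∉ L' := by
        constructor
        · intro hx
          exact ⟨by simp [hx], fun hx' =>
            (List.nodup_append.1 hn').2.2 x hx' x (by simp [hx]) rfl⟩
        · rintro ⟨h1, h2⟩
          simp only [List.mem_append] at h1
          exact h1.resolve_left h2
      rw [e1, e2, hmemLR, hmemL]
    have hpL : L.Perm L' := (List.perm_ext_iff_of_nodup hnL hnL').2 hmemL
    have hpR : R.Perm R' := (List.perm_ext_iff_of_nodup hnR hnR').2 hmemR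
    have eL := ihL (av_left hL hR hav) L' hnL' (av_left hL' hR' hav') hpL hTL
    have eR := ihR (av_right hL hR hav) R' hnR' (av_right hL' hR' hav') hpR hTR
    rw [eL, eR]

theorem cnt_le_M {w : List ℕ} (hw : w.Nodup) : ∀ r, cnt r w ≤ ((Th w).M r : ℕ∞) := by
  refine maxInd (P := fun w => ∀ r, cnt r w ≤ ((Th w).M r : ℕ∞)) ?_ ?_ w hw
  · intro r
    rw [cnt_nil, Th_nil, M]
    by_cases h : r = 0
    · simp [h]
    · simp [h]
  · intro L m R hn hL hR ihL ihR r
    rw [Th_split hL hR, M]
    refine (cnt_split hL hR r).trans ?_
    push_cast
    apply Finset.sum_le_sum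
    rintro ⟨p, q⟩ _
    refine mul_le_mul' ?_ (ihR q)
    cases p with
    | zero =>
      rw [cnt_zero (by simp)]
      exact zero_le
    | succ p =>
      refine (cnt_last L m p).trans ?_
      simp only [th]
      push_cast
      exact add_le_add (add_le_add (ihL p) (by gcongr; exact ihL (p + 1))) (ihL (p + 2))

end Pool.Agent.TH428.Stk
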