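import Mathlib

/-!
The stack-sorting map on words, its basic properties, and the weak form of the fact that a word
sorted by two passes has an output (after one pass) avoiding the pattern 231.
-/

set_option autoImplicit false

namespace Pool.Agent.TH428.Stk

/-- The largest letter of a word (`0` for the empty word). -/
def mx (w : List ℕ) : ℕ := w.foldr max 0

theorem le_mx {w : List ℕ} {x : ℕ} (h : x ∈ w) : x ≤ mx w := by
  induction w with
  | nil => simp at h
  | cons a l ih =>
    simp only [mx, List.foldr_cons, List.mem_cons] at h ⊢
    rcases h with rfl | h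
    · exact le_max_left _ _
    · exact (ih h).trans (le_max_right _ _)

theorem mx_mem {w : List ℕ} (h : w ≠ []) : mx w ∈ w := by
  induction w with
  | nil => exact absurd rfl h
  | cons a l ih =>
    simp only [mx, List.foldr_cons, List.mem_cons]
    rcases Nat.le_total (l.foldr max 0) a with h1 | h1
    · left; exact max_eq_left h1
    · by_cases hl : l = []
      · subst hl; left; simp
      · right
        rw [max_eq_right h1]
        exact ih hl

theorem mx_append_cons {L R : List ℕ} {m : ℕ} (hL : ∀ x ∈ L, x < m) (hR : ∀ x ∈ R, x < m) :
    mx (L ++ m :: R) = m := by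
  apply le_antisymm
  · have := mx_mem (w := L ++ m :: R) (by simp)
    simp only [List.mem_append, List.mem_cons] at this
    rcases this with h | h | h
    · exact (hL _ h).le
    · exact h.le
    · exact (hR _ h).le
  · exact le_mx (by simp)

/-- The stack-sorting map: `srt (L m R) = srt L, srt R, m` where `m` is the largest letter. -/
def srt : List ℕ → List ℕ
  | [] => []
  | (a :: l) =>
    srt ((a :: l).takeWhile (fun x => x != mx (a :: l))) ++
      srt ((a :: l).dropWhile (fun x => x != mx (a :: l))).tail ++ [mx (a :: l)]
termination_by w => w.length
decreasing_by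
  · have hm : mx (a :: l) ∈ a :: l := mx_mem (by simp)
    have h1 := List.takeWhile_append_dropWhile (p := fun x => x != mx (a :: l)) (l := a :: l)
    have h2 : (a :: l).dropWhile (fun x => x != mx (a :: l)) ≠ [] := by
      intro h
      rw [List.dropWhile_eq_nil_iff] at h
      simpa using h _ hm
    have h3 : 0 < ((a :: l).dropWhile (fun x => x != mx (a :: l))).length :=
      List.length_pos_iff.2 h2
    have h4 := congrArg List.length h1
    rw [List.length_append] at h4
    omega
  · have hm : mx (a :: l) ∈ a :: l := mx_mem (by simp)
    have h1 := List.takeWhile_append_dropWhile (p := fun x => x != mx (a :: l)) (l := a :: l)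
    have h2 : (a :: l).dropWhile (fun x => x != mx (a :: l)) ≠ [] := by
      intro h
      rw [List.dropWhile_eq_nil_iff] at h
      simpa using h _ hm
    have h3 : 0 < ((a :: l).dropWhile (fun x => x != mx (a :: l))).length :=
      List.length_pos_iff.2 h2
    have h4 := congrArg List.length h1
    rw [List.length_append] at h4
    rw [List.length_tail]
    omega

@[simp] theorem srt_nil : srt [] = [] := by rw [srt]

/-- Splitting a nonempty word at the first occurrence of its largest letter. -/
theorem exists_split {w : List ℕ} (h : w ≠ []) :
    ∃ L R, w = L ++ mx w :: R ∧ (∀ x ∈ L, x < mx w) ∧ (∀ x ∈ R, x ≤ mx w) ∧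
      srt w = srt L ++ srt R ++ [mx w] := by
  obtain ⟨a, l, rfl⟩ := List.exists_cons_of_ne_nil h
  set w := a :: l with hw
  have hm : mx w ∈ w := mx_mem (by simp [hw])
  have h1 := List.takeWhile_append_dropWhile (p := fun x => x != mx w) (l := w)
  have h2 : w.dropWhile (fun x => x != mx w) ≠ [] := by
    intro h
    rw [List.dropWhile_eq_nil_iff] at h
    simpa using h _ hm
  obtain ⟨b, t, hbt⟩ := List.exists_cons_of_ne_nil h2
  have hb : b = mx w := by
    have := List.head_dropWhile_not (fun x => x != mx w) h2
    simp only [hbt, List.head_cons] at this
    simpa using this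
  subst hb
  refine ⟨w.takeWhile (fun x => x != mx w), t, ?_, ?_, ?_, ?_⟩
  · rw [← hbt, h1]
  · intro x hx
    have hx1 : x ∈ w := (List.takeWhile_sublist _).subset hx
    have hx2 := List.mem_takeWhile_imp hx
    have := le_mx hx1
    have hne : x ≠ mx w := by simpa using hx2
    omega
  · intro x hx
    apply le_mx
    have : x ∈ w.dropWhile (fun x => x != mx w) := by rw [hbt]; simp [hx]
    exact (List.dropWhile_sublist _).subset this
  · have h5 : srt w = srt (w.takeWhile (fun x => x != mx w)) ++
      srt (w.dropWhile (fun x => x != mx w)).tail ++ [mx w] := by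
      rw [hw, srt]
    rw [h5, hbt, List.tail_cons]

theorem srt_split {L R : List ℕ} {m : ℕ} (hL : ∀ x ∈ L, x < m) (hR : ∀ x ∈ R, x < m) :
    srt (L ++ m :: R) = srt L ++ srt R ++ [m] := by
  obtain ⟨L', R', h1, h2, h3, h4⟩ := exists_split (w := L ++ m :: R) (by simp)
  rw [mx_append_cons hL hR] at h1 h2 h3 h4
  rw [h4]
  have key : L' = L ∧ R' = R := by
    have hn1 : m ∉ L := fun h => lt_irrefl _ (hL m h)
    have hn2 : m ∉ L' := fun h => lt_irrefl _ (h2 m h)
    rw [List.append_eq_append_iff] at h1
    rcases h1 with ⟨c, hc1, hc2⟩ | ⟨c, hc1, hc2⟩
    · cases c with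
      | nil => simp at hc1 hc2; exact ⟨hc1, hc2.symm⟩
      | cons d c =>
        simp only [List.cons_append, List.cons.injEq] at hc2
        exfalso; apply hn2; rw [hc1]; simp [hc2.1]
    · cases c with
      | nil => simp at hc1 hc2; exact ⟨hc1.symm, hc2⟩
      | cons d c =>
        simp only [List.cons_append, List.cons.injEq] at hc2
        exfalso; apply hn1; rw [hc1]; simp [hc2.1]
  rw [key.1, key.2]

theorem srt_perm (w : List ℕ) : (srt w).Perm w := by
  induction h : w.length using Nat.strong_induction_on generalizing w with
  | _ n ih =>
    by_cases hw : w = []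
    · subst hw; simp
    · obtain ⟨L, R, h1, -, -, h4⟩ := exists_split hw
      have hlen := congrArg List.length h1
      simp only [List.length_append, List.length_cons] at hlen
      have hL := ih L.length (by omega) L rfl
      have hR := ih R.length (by omega) R rfl
      rw [h4]
      conv_rhs => rw [h1]
      calc (srt L ++ srt R ++ [mx w]).Perm (mx w :: (srt L ++ srt R)) := List.perm_append_singleton _ _
        _ |>.Perm (mx w :: (L ++ R)) := (hL.append hR).cons _
        _ |>.Perm (L ++ mx w :: R) := List.perm_middle.symm

theorem srt_eq_nil {w : List ℕ} : srt w = [] ↔ w = [] := by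
  constructor
  · intro h
    have := (srt_perm w).length_eq
    rw [h] at this
    exact List.length_eq_zero_iff.1 this.symm
  · rintro rfl; simp

theorem length_srt (w : List ℕ) : (srt w).length = w.length := (srt_perm w).length_eq

theorem mem_srt {w : List ℕ} {x : ℕ} : x ∈ srt w ↔ x ∈ w := (srt_perm w).mem_iff

/-- Induction on words without repeated letters, splitting at the largest letter. -/
theorem maxInd {P : List ℕ → Prop} (h0 : P [])
    (h1 : ∀ (L : List ℕ) (m : ℕ) (R : List ℕ), (L ++ m :: R).Nodup → (∀ x ∈ L, x < m) →
      (∀ x ∈ R, x < m) → P L → P R → P (L ++ m :: R)) :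
    ∀ w : List ℕ, w.Nodup → P w := by
  intro w
  induction h : w.length using Nat.strong_induction_on generalizing w with
  | _ n ih =>
    intro hn
    by_cases hw : w = []
    · subst hw; exact h0
    · obtain ⟨L, R, h2, hL, hR, -⟩ := exists_split hw
      have hlen := congrArg List.length h2
      simp only [List.length_append, List.length_cons] at hlen
      have hn' : (L ++ mx w :: R).Nodup := h2 ▸ hn
      have hnL : L.Nodup := (List.nodup_append.1 hn').1
      have hnR' : (mx w :: R).Nodup := (List.nodup_append.1 hn').2.1
      have hnR : R.Nodup := (List.nodup_cons.1 hnR').2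
      have hR' : ∀ x ∈ R, x < mx w := by
        intro x hx
        refine lt_of_le_of_ne (hR x hx) ?_
        rintro rfl
        exact (List.nodup_cons.1 hnR').1 hx
      rw [h2]
      exact h1 L (mx w) R hn' hL hR' (ih L.length (by omega) L rfl hnL)
        (ih R.length (by omega) R rfl hnR)

/-- If `b c a` occur in this order with `c` larger than both, then `b` comes before `a` in
`srt w`. -/
theorem sublist_srt {w : List ℕ} (hw : w.Nodup) {a b c : ℕ} (h : List.Sublist [b, c, a] w)
    (hbc : b < c) (hac : a < c) : List.Sublist [b, a] (srt w) := by
  revert a b c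
  refine maxInd (P := fun w => ∀ {a b c : ℕ}, List.Sublist [b, c, a] w → b < c → a < c →
    List.Sublist [b, a] (srt w)) ?_ ?_ w hw
  · intro a b c h
    simp at h
  · intro L m R hn hL hR ihL ihR a b c h hbc hac
    rw [srt_split hL hR]
    have hmemL : ∀ x, List.Sublist [x] L → x ∈ L := fun x hx => by simpa using hx
    rw [List.sublist_append_iff] at h
    obtain ⟨l1, l2, h12, hs1, hs2⟩ := h
    have hall : ∀ x ∈ L ++ m :: R, x ≤ m := by
      intro x hx
      simp only [List.mem_append, List.mem_cons] at hx
      rcases hx with hx | hx | hx
      · exact (hL x hx).le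
      · exact hx.le
      · exact (hR x hx).le
    rcases l1 with _ | ⟨x1, l1⟩
    · -- all in m :: R
      simp only [List.nil_append] at h12
      subst h12
      rw [List.sublist_cons_iff] at hs2
      rcases hs2 with hs2 | ⟨r, hr, hs2⟩
      · have := ihR hs2 hbc hac
        exact (this.trans (List.sublist_append_right _ _)).trans (List.sublist_append_left _ _)
      · simp only [List.cons.injEq] at hr
        obtain ⟨rfl, rfl⟩ := hr
        have : c ∈ R := hs2.subset (by simp)
        exact absurd (hR c this) (by omega)
    · simp only [List.cons_append, List.cons.injEq] at h12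
      obtain ⟨rfl, h12⟩ := h12
      rcases l1 with _ | ⟨x2, l1⟩
      · -- b in L, c a in m :: R
        simp only [List.nil_append] at h12
        subst h12
        have hb : b ∈ L := hs1.subset (by simp)
        have ha : a ∈ R := by
          rw [List.sublist_cons_iff] at hs2
          rcases hs2 with hs2 | ⟨r, hr, hs2⟩
          · exact hs2.subset (by simp)
          · simp only [List.cons.injEq] at hr
            obtain ⟨rfl, rfl⟩ := hr
            exact hs2.subset (by simp)
        have h1 : List.Sublist [b] (srt L) := by simpa using mem_srt.2 hb
        have h2 : List.Sublist [a] (srt R) := by simpa using mem_srt.2 ha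
        have h3 : List.Sublist ([b] ++ [a]) (srt L ++ srt R) := h1.append h2
        exact h3.trans (List.sublist_append_left _ _)
      · simp only [List.cons_append, List.cons.injEq] at h12
        obtain ⟨rfl, h12⟩ := h12
        rcases l1 with _ | ⟨x3, l1⟩
        · -- b c in L, a in m :: R
          simp only [List.nil_append] at h12
          subst h12
          have hb : b ∈ L := hs1.subset (by simp)
          have hc : c ∈ L := hs1.subset (by simp)
          have ha : a ∈ R := by
            have : a ∈ m :: R := hs2.subset (by simp)
            simp only [List.mem_cons] at this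
            rcases this with rfl | h
            · exact absurd (hL c hc) (by omega)
            · exact h
          have h1 : List.Sublist [b] (srt L) := by simpa using mem_srt.2 hb
          have h2 : List.Sublist [a] (srt R) := by simpa using mem_srt.2 ha
          have h3 : List.Sublist ([b] ++ [a]) (srt L ++ srt R) := h1.append h2
          exact h3.trans (List.sublist_append_left _ _)
        · simp only [List.cons_append, List.cons.injEq] at h12
          obtain ⟨rfl, h12⟩ := h12
          have : l1 = [] := by
            cases l1 with
            | nil => rfl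
            | cons _ _ => simp at h12
          subst this
          have := ihL hs1 hbc hac
          exact (this.trans (List.sublist_append_left _ _)).trans (List.sublist_append_left _ _)

/-- Avoidance of the pattern 231. -/
def Av (w : List ℕ) : Prop :=
  ∀ b c a : ℕ, List.Sublist [b, c, a] w → ¬ (a < b ∧ b < c)

theorem av_of_srt_sorted {w : List ℕ} (hw : w.Nodup) (hs : (srt w).Pairwise (· < ·)) : Av w := by
  intro b c a h hab
  have := sublist_srt hw h hab.2 (hab.1.trans hab.2)
  have h2 := hs.sublist this
  simp at h2
  omega

theorem Av.sublist {u w : List ℕ} (h : Av w) (hs : List.Sublist u w) : Av u :=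
  fun b c a h1 => h b c a (h1.trans hs)

end Pool.Agent.TH428.Stk
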